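import Pool.Agent.H133Z.ConfHig

set_option autoImplicit false

namespace Pool.Agent.H133Z.Conf

open SignType

/-- parameter along the direction `v - u` -/
def par (u v x : ℝ × ℝ) : ℝ := x.1 * (v.1 - u.1) + x.2 * (v.2 - u.2)

/-- squared length of `v - u` -/
def sq (u v : ℝ × ℝ) : ℝ := (v.1 - u.1) ^ 2 + (v.2 - u.2) ^ 2

lemma sq_pos {u v : ℝ × ℝ} (h : u ≠ v) : 0 < sq u v := by
  unfold sq
  by_contra h1
  apply h
  have h2 : (v.1 - u.1) ^ 2 = 0 := by nlinarith [sq_nonneg (v.1 - u.1), sq_nonneg (v.2 - u.2)]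
  have h3 : (v.2 - u.2) ^ 2 = 0 := by nlinarith [sq_nonneg (v.1 - u.1), sq_nonneg (v.2 - u.2)]
  have h4 := pow_eq_zero_iff (two_ne_zero) |>.1 h2
  have h5 := pow_eq_zero_iff (two_ne_zero) |>.1 h3
  ext <;> linarith

lemma det_line {u v x y : ℝ × ℝ} (hx : det u v x = 0) (hy : det u v y = 0) (z : ℝ × ℝ) :
    det x y z * sq u v = (par u v y - par u v x) * det u v z := by
  unfold det sq par at *
  linear_combination (-(y.1 * (v.1 - u.1) + y.2 * (v.2 - u.2) - (x.1 * (v.1 - u.1) + x.2 * (v.2 - u.2)))
    + (z.1 * (v.1 - u.1) + z.2 * (v.2 - u.2) - (x.1 * (v.1 - u.1) + x.2 * (v.2 - u.2)))) * hx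
    - (z.1 * (v.1 - u.1) + z.2 * (v.2 - u.2) - (x.1 * (v.1 - u.1) + x.2 * (v.2 - u.2))) * hy

lemma eq_of_par {u v x y : ℝ × ℝ} (h : u ≠ v) (hx : det u v x = 0) (hy : det u v y = 0)
    (hp : par u v x = par u v y) : x = y := by
  have h0 := (sq_pos h).ne'
  have h1 : (x.1 - y.1) * sq u v = 0 := by
    unfold det sq par at *
    linear_combination (v.1 - u.1) * hp - (v.2 - u.2) * hx + (v.2 - u.2) * hy
  have h2 : (x.2 - y.2) * sq u v = 0 := by
    unfold det sq par at *
    linear_combination (v.2 - u.2) * hp + (v.1 - u.1) * hx - (v.1 - u.1) * hy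
  have h3 := (mul_eq_zero.1 h1).resolve_right h0
  have h4 := (mul_eq_zero.1 h2).resolve_right h0
  ext <;> linarith

lemma orient_line {u v x y : ℝ × ℝ} (h : u ≠ v) (hx : det u v x = 0) (hy : det u v y = 0)
    (z : ℝ × ℝ) : orient x y z = -sign (par u v x - par u v y) * orient u v z := by
  have h1 := congrArg sign (det_line hx hy z)
  rw [sign_mul, sign_mul, sign_pos (sq_pos h), mul_one] at h1
  unfold orient
  rw [h1, ← Left.sign_neg, neg_sub]

lemma orient_cyc (x y z : ℝ × ℝ) : orient x y z = orient y z x := by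
  unfold orient det; congr 1; ring

lemma orient_swap (x y z : ℝ × ℝ) : orient x y z = -orient x z y := by
  unfold orient det; rw [← Left.sign_neg]; congr 1; ring

lemma det_cyc (x y z : ℝ × ℝ) : det x y z = det y z x := by
  unfold det; ring

lemma det_swap (x y z : ℝ × ℝ) : det x y z = -det x z y := by
  unfold det; ring

lemma orient_eq_zero {x y z : ℝ × ℝ} : orient x y z = 0 ↔ det x y z = 0 := by
  unfold orient; exact sign_eq_zero_iff

/-- two different points of a line span the same line -/
lemma same_line {u v x y : ℝ × ℝ} (h : u ≠ v) (hxy : x ≠ y) (hx : det u v x = 0)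
    (hy : det u v y = 0) (z : ℝ × ℝ) : det x y z = 0 ↔ det u v z = 0 := by
  have h1 := det_line hx hy z
  have h2 : par u v y - par u v x ≠ 0 := fun h3 =>
    hxy (eq_of_par h hx hy (sub_eq_zero.1 h3).symm)
  constructor
  · intro h3
    rw [h3, zero_mul] at h1
    exact (mul_eq_zero.1 h1.symm).resolve_left h2
  · intro h3
    rw [h3, mul_zero] at h1
    exact (mul_eq_zero.1 h1).resolve_right (sq_pos h).ne'

/-- one line and a bounded rest -/
lemma codable_one (C : ℕ) (S : Finset (ℝ × ℝ)) {u v : ℝ × ℝ} (h : u ≠ v)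
    (hC : (S.filter (fun x => det u v x ≠ 0)).card ≤ C + 1) :
    Codable ((Fin (C + 1) → Fin (C + 1) → SignType) ⊕ Fin (C + 1)) S := by
  classical
  have h1 : ∃ (q : Fin (C + 1) → ℝ × ℝ) (idx : ℝ × ℝ → Fin (C + 1)),
      ∀ y ∈ S, det u v y ≠ 0 → q (idx y) = y := by
    set Q := S.filter (fun x => det u v x ≠ 0)
    have hle : Fintype.card Q ≤ Fintype.card (Fin (C + 1)) := by simpa using hC
    obtain ⟨e⟩ := Function.Embedding.nonempty_of_card_le hle
    refine ⟨fun k => if hk : ∃ y : Q, e y = k then (hk.choose : ℝ × ℝ) else 0,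
      fun y => if hy : y ∈ Q then e ⟨y, hy⟩ else 0, fun y hy hy' => ?_⟩
    have hyQ : y ∈ Q := Finset.mem_filter.2 ⟨hy, hy'⟩
    have hk : ∃ y' : Q, e y' = e ⟨y, hyQ⟩ := ⟨_, rfl⟩
    simp only [hyQ, dite_true, hk]
    exact congrArg Subtype.val (e.injective hk.choose_spec)
  obtain ⟨q, idx, hq⟩ := h1
  refine ⟨par u v, fun x => if det u v x = 0 then Sum.inl (fun i j => orient x (q i) (q j))
    else Sum.inr (idx x), fun a b c sxy sxz syz =>
      match a, b, c with
      | .inl _, .inl _, .inl _ => 0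
      | .inl _, .inl _, .inr k => -sxy * orient u v (q k)
      | .inl _, .inr k, .inl _ => sxz * orient u v (q k)
      | .inr k, .inl _, .inl _ => -syz * orient u v (q k)
      | .inl τ, .inr i, .inr j => τ i j
      | .inr i, .inl τ, .inr j => τ j i
      | .inr i, .inr j, .inl τ => τ i j
      | .inr i, .inr j, .inr k => orient (q i) (q j) (q k), ?_, ?_⟩
  · intro x hx y hy ht hl
    by_cases h1 : det u v x = 0 <;> by_cases h2 : det u v y = 0
    · exact eq_of_par h h1 h2 ht
    · simp [h1, h2] at hl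
    · simp [h1, h2] at hl
    · simp only [h1, h2, if_false, Sum.inr.injEq] at hl
      rw [← hq x hx h1, ← hq y hy h2, hl]
  · intro x hx y hy z hz
    by_cases h1 : det u v x = 0 <;> by_cases h2 : det u v y = 0 <;> by_cases h3 : det u v z = 0 <;>
      simp only [h1, h2, h3, if_true, if_false]
    · rw [orient_line h h1 h2 z, orient_eq_zero.2 h3, mul_zero]
    · rw [hq z hz h3, orient_line h h1 h2 z]
    · rw [hq y hy h2, orient_swap, orient_line h h1 h3 y]; simp
    · rw [hq y hy h2, hq z hz h3]
    · rw [hq x hx h1, orient_cyc, orient_line h h2 h3 x]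
    · rw [hq x hx h1, hq z hz h3, orient_cyc]
    · rw [hq x hx h1, hq y hy h2, orient_cyc, orient_cyc]
    · rw [hq x hx h1, hq y hy h2, hq z hz h3]

lemma orient_via {u v x y p : ℝ × ℝ} (h : u ≠ v) (hx : det u v x = 0) (hy : det u v y = 0)
    (hp : det u v p ≠ 0) (z : ℝ × ℝ) :
    orient x y z = orient p x y * orient u v z * orient u v p := by
  have h1 : orient u v p * orient u v p = 1 := by
    have : orient u v p ≠ 0 := fun h2 => hp (orient_eq_zero.1 h2)
    revert this
    generalize orient u v p = s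
    revert s; decide
  rw [orient_cyc p x y, orient_line h hx hy z, orient_line h hx hy p]
  calc _ = -sign (par u v x - par u v y) * orient u v z * (orient u v p * orient u v p) := by
        rw [h1, mul_one]
    _ = _ := by ac_rfl

/-- two lines and a point -/
lemma codable_two (S : Finset (ℝ × ℝ)) {u v u' v' p : ℝ × ℝ} (h : u ≠ v) (h' : u' ≠ v')
    (hp : det u v p ≠ 0) (hp' : det u' v' p ≠ 0)
    (hS : ∀ x ∈ S, x ≠ p → det u v x = 0 ∨ det u' v' x = 0) :
    Codable (Option (SignType × SignType × SignType)) S := by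
  classical
  obtain ⟨c, hc⟩ := Infinite.exists_notMem_finset
    (S.image (fun x => (x.2 - p.2) / (x.1 - p.1)))
  let g : ℝ × ℝ → ℝ := fun x => (x.2 - p.2) - c * (x.1 - p.1)
  have hg : ∀ x ∈ S, x ≠ p → g x ≠ 0 := by
    intro x hx hxp h0
    by_cases h1 : x.1 - p.1 = 0
    · apply hxp
      simp only [g, h1, mul_zero, sub_zero] at h0
      ext <;> linarith
    · apply hc
      refine Finset.mem_image.2 ⟨x, hx, ?_⟩
      field_simp
      simp only [g] at h0
      linarith
  let t : ℝ × ℝ → ℝ := fun x => (x.1 - p.1) / g x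
  have ht : ∀ x ∈ S, x ≠ p → ∀ y ∈ S, y ≠ p →
      orient p x y = sign (g x) * sign (g y) * sign (t x - t y) := by
    intro x hx hxp y hy hyp
    rw [← sign_mul, ← sign_mul]
    unfold orient
    congr 1
    have h1 := hg x hx hxp
    have h2 := hg y hy hyp
    simp only [t]
    field_simp
    simp only [g, det]
    ring
  refine ⟨t, fun x => if x = p then none else some (sign (g x), orient u v x, orient u' v' x),
    fun a b c sxy sxz syz =>
      match a, b, c with
      | none, none, _ => 0
      | none, some _, none => 0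
      | some _, none, none => 0
      | none, some y, some z => y.1 * z.1 * syz
      | some x, none, some z => -(x.1 * z.1 * sxz)
      | some x, some y, none => x.1 * y.1 * sxy
      | some x, some y, some z =>
        if x.2.1 = 0 ∧ y.2.1 = 0 then x.1 * y.1 * sxy * z.2.1 * orient u v p
        else if x.2.2 = 0 ∧ y.2.2 = 0 then x.1 * y.1 * sxy * z.2.2 * orient u' v' p
        else if x.2.1 = 0 ∧ z.2.1 = 0 then -(x.1 * z.1 * sxz * y.2.1 * orient u v p)
        else if x.2.2 = 0 ∧ z.2.2 = 0 then -(x.1 * z.1 * sxz * y.2.2 * orient u' v' p)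
        else if y.2.1 = 0 ∧ z.2.1 = 0 then y.1 * z.1 * syz * x.2.1 * orient u v p
        else y.1 * z.1 * syz * x.2.2 * orient u' v' p, ?_, ?_⟩
  · intro x hx y hy h1 hl
    by_cases hxp : x = p <;> by_cases hyp : y = p
    · rw [hxp, hyp]
    · simp [hxp, hyp] at hl
    · simp [hxp, hyp] at hl
    · simp only [hxp, hyp, if_false, Option.some.injEq, Prod.mk.injEq] at hl
      have h2 : det x y p = 0 := by
        rw [← det_cyc p x y, ← orient_eq_zero, ht x hx hxp y hy hyp, h1]; simp
      by_contra hne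
      rcases hS x hx hxp with h3 | h3
      · have h4 : det u v y = 0 := by rw [← orient_eq_zero, ← hl.2.1, orient_eq_zero, h3]
        exact hp ((same_line h hne h3 h4 p).1 h2)
      · have h4 : det u' v' y = 0 := by rw [← orient_eq_zero, ← hl.2.2, orient_eq_zero, h3]
        exact hp' ((same_line h' hne h3 h4 p).1 h2)
  · intro x hx y hy z hz
    by_cases hxp : x = p <;> by_cases hyp : y = p <;> by_cases hzp : z = p <;>
      simp only [hxp, hyp, hzp, if_true, if_false]
    · simp [orient, det]
    · simp [orient, det]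
    · rw [orient_eq_zero]; unfold det; ring
    · exact ht y hy hyp z hz hzp
    · rw [orient_eq_zero]; unfold det; ring
    · rw [orient_cyc, orient_swap, ht x hx hxp z hz hzp]
    · rw [← orient_cyc, ht x hx hxp y hy hyp]
    · simp only [orient_eq_zero]
      split_ifs with c1 c2 c3 c4 c5
      · rw [orient_via h c1.1 c1.2 hp, ht x hx hxp y hy hyp]
      · rw [orient_via h' c2.1 c2.2 hp', ht x hx hxp y hy hyp]
      · rw [orient_swap, orient_via h c3.1 c3.2 hp, ht x hx hxp z hz hzp]
      · rw [orient_swap, orient_via h' c4.1 c4.2 hp', ht x hx hxp z hz hzp]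
      · rw [orient_cyc, orient_via h c5.1 c5.2 hp, ht y hy hyp z hz hzp]
      · have c6 : det u' v' y = 0 ∧ det u' v' z = 0 := by
          have a1 := hS x hx hxp
          have a2 := hS y hy hyp
          have a3 := hS z hz hzp
          tauto
        rw [orient_cyc, orient_via h' c6.1 c6.2 hp', ht y hy hyp z hz hzp]

end Pool.Agent.H133Z.Conf
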