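import Mathlib

set_option autoImplicit false

/-! Finite planar point sets up to order type. -/

namespace Pool.Agent.H133Z.Conf

/-- Twice the signed area of the triangle `a b c`. -/
def det (a b c : ℝ × ℝ) : ℝ := (b.1 - a.1) * (c.2 - a.2) - (b.2 - a.2) * (c.1 - a.1)

/-- Orientation of an ordered triple: `1` counterclockwise, `-1` clockwise, `0` collinear. -/
noncomputable def orient (a b c : ℝ × ℝ) : SignType := SignType.sign (det a b c)

/-- No three distinct points of `P` are collinear. -/
def GenPos (P : Finset (ℝ × ℝ)) : Prop :=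
  ∀ a ∈ P, ∀ b ∈ P, ∀ c ∈ P, a ≠ b → a ≠ c → b ≠ c → orient a b c ≠ 0

/-- `T` is a subconfiguration of `S`: an injection of `T` into `S` keeps the orientation of every
ordered triple. -/
def SubConf (T S : Finset (ℝ × ℝ)) : Prop :=
  ∃ f : ℝ × ℝ → ℝ × ℝ, Set.InjOn f T ∧ Set.MapsTo f T S ∧
    ∀ a ∈ T, ∀ b ∈ T, ∀ c ∈ T, orient (f a) (f b) (f c) = orient a b c

/-- Every subset of `S` in general position has fewer than `k` points. -/
def NoGen (k : ℕ) (S : Finset (ℝ × ℝ)) : Prop :=
  ∀ P ⊆ S, GenPos P → P.card < k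

end Pool.Agent.H133Z.Conf
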