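import Pool.Agent.H133Z.ConfDefs

set_option autoImplicit false

namespace Pool.Agent.H133Z.Conf

open SignType

lemma ofFn_sublist {α : Type} {m n : ℕ} (a : Fin m → α) (b : Fin n → α)
    (h : List.Sublist (List.ofFn a) (List.ofFn b)) :
    ∃ φ : Fin m ↪o Fin n, ∀ k, a k = b (φ k) := by
  obtain ⟨f, hf⟩ := List.sublist_iff_exists_fin_orderEmbedding_get_eq.1 h
  refine ⟨((Fin.castOrderIso (List.length_ofFn (f := a)).symm).toOrderEmbedding.trans f).trans
    (Fin.castOrderIso (List.length_ofFn (f := b))).toOrderEmbedding, fun k => ?_⟩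
  have := hf (Fin.cast (List.length_ofFn (f := a)).symm k)
  simp only [List.get_eq_getElem, List.getElem_ofFn] at this
  exact this

lemma higman_words {α : Type} [Finite α] (w : ℕ → List α) :
    ∃ i j, i < j ∧ List.Sublist (w i) (w j) := by
  have h1 : (Set.univ : Set α).PartiallyWellOrderedOn (· = ·) :=
    Set.finite_univ.partiallyWellOrderedOn
  have h2 := Set.PartiallyWellOrderedOn.partiallyWellOrderedOn_sublistForall₂ (· = ·) h1
  obtain ⟨i, j, hij, h⟩ := h2.exists_lt (f := w) (fun n => by simp)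
  refine ⟨i, j, hij, ?_⟩
  obtain ⟨l, h3, h4⟩ := List.sublistForall₂_iff.1 h
  rw [List.forall₂_eq_eq_eq] at h3
  rwa [h3]

lemma sign_sub_emb {m : ℕ} (a : Fin m ↪o ℝ) (b : Fin m ↪o ℝ) (k l : Fin m) :
    sign (a k - a l) = sign (b k - b l) := by
  rcases lt_trichotomy k l with h | h | h
  · rw [sign_neg (sub_neg.2 (a.strictMono h)), sign_neg (sub_neg.2 (b.strictMono h))]
  · subst h; simp
  · rw [sign_pos (sub_pos.2 (a.strictMono h)), sign_pos (sub_pos.2 (b.strictMono h))]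

lemma higman_pts {Λ X : Type} [Finite Λ] (S : ℕ → Finset X) (t : ℕ → X → ℝ)
    (lab : ℕ → X → Λ) :
    ∃ i j, i < j ∧ ∃ f : X → X, Set.MapsTo f (S i) (S j) ∧ (∀ x ∈ S i, lab j (f x) = lab i x) ∧
      ∀ x ∈ S i, ∀ y ∈ S i, sign (t j (f x) - t j (f y)) = sign (t i x - t i y) := by
  classical
  let T : ℕ → Finset ℝ := fun n => (S n).image (t n)
  let e : ∀ n, Fin (T n).card ↪o ℝ := fun n => (T n).orderEmbOfFin rfl
  let L : ℕ → ℝ → Set Λ := fun n r => {l | ∃ x ∈ S n, t n x = r ∧ lab n x = l}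
  obtain ⟨i, j, hij, h⟩ := higman_words (fun n => List.ofFn (fun k => L n (e n k)))
  obtain ⟨φ, hφ⟩ := ofFn_sublist _ _ h
  have key : ∀ x ∈ S i, ∃ k, ∃ x' ∈ S j, t i x = e i k ∧ t j x' = e j (φ k) ∧ lab j x' = lab i x := by
    intro x hx
    have h1 : t i x ∈ Set.range (e i) := by
      rw [Finset.range_orderEmbOfFin]
      exact Finset.mem_coe.2 (Finset.mem_image_of_mem _ hx)
    obtain ⟨k, hk⟩ := h1
    have h2 : lab i x ∈ L i (e i k) := ⟨x, hx, hk.symm, rfl⟩
    rw [hφ k] at h2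
    obtain ⟨x', hx', h3, h4⟩ := h2
    exact ⟨k, x', hx', hk.symm, h3, h4⟩
  choose! k f hf using key
  refine ⟨i, j, hij, f, fun x hx => (hf x hx).1, fun x hx => (hf x hx).2.2.2, fun x hx y hy => ?_⟩
  rw [(hf x hx).2.1, (hf y hy).2.1, (hf x hx).2.2.1, (hf y hy).2.2.1]
  exact sign_sub_emb (φ.trans (e j)) (e i) _ _

/-- the order type of `S` is read off from labels and a real parameter -/
def Codable (Λ : Type) (S : Finset (ℝ × ℝ)) : Prop :=
  ∃ (t : ℝ × ℝ → ℝ) (lab : ℝ × ℝ → Λ)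
    (F : Λ → Λ → Λ → SignType → SignType → SignType → SignType),
    (∀ x ∈ S, ∀ y ∈ S, t x = t y → lab x = lab y → x = y) ∧
    ∀ x ∈ S, ∀ y ∈ S, ∀ z ∈ S, orient x y z =
      F (lab x) (lab y) (lab z) (sign (t x - t y)) (sign (t x - t z)) (sign (t y - t z))

lemma wqo_codable {Λ : Type} [Finite Λ] (S : ℕ → Finset (ℝ × ℝ)) (h : ∀ n, Codable Λ (S n)) :
    ∃ i j, i < j ∧ SubConf (S i) (S j) := by
  choose t lab F hinj hF using h
  have : Finite SignType := inferInstance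
  have : Finite (SignType → SignType → SignType → SignType) := inferInstance
  have : Finite (Λ → Λ → Λ → SignType → SignType → SignType → SignType) := inferInstance
  obtain ⟨i, j, hij, f, h1, h2, h3⟩ := higman_pts S t (fun n x => (lab n x, F n))
  refine ⟨i, j, hij, f, fun x hx y hy hxy => ?_, h1, fun a ha b hb c hc => ?_⟩
  · apply hinj i x hx y hy
    · have := h3 x hx y hy
      rw [hxy, sub_self, sign_zero] at this
      exact sub_eq_zero.1 (sign_eq_zero_iff.1 this.symm)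
    · have e1 := (Prod.ext_iff.1 (h2 x hx)).1
      have e2 := (Prod.ext_iff.1 (h2 y hy)).1
      simp only at e1 e2
      rw [← e1, ← e2, hxy]
  · have e0 := (Prod.ext_iff.1 (h2 a ha)).2
    have e1 := (Prod.ext_iff.1 (h2 a ha)).1
    have e2 := (Prod.ext_iff.1 (h2 b hb)).1
    have e3 := (Prod.ext_iff.1 (h2 c hc)).1
    simp only at e0 e1 e2 e3
    rw [hF j _ (h1 ha) _ (h1 hb) _ (h1 hc), hF i a ha b hb c hc, e0, e1, e2, e3,
      h3 a ha b hb, h3 a ha c hc, h3 b hb c hc]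

lemma Codable.map {Λ Λ' : Type} {S : Finset (ℝ × ℝ)} (h : Codable Λ S) (e : Λ → Λ') (g : Λ' → Λ)
    (hg : ∀ l, g (e l) = l) : Codable Λ' S := by
  obtain ⟨t, lab, F, h1, h2⟩ := h
  refine ⟨t, fun x => e (lab x), fun a b c => F (g a) (g b) (g c), fun x hx y hy h3 h4 => ?_,
    fun x hx y hy z hz => ?_⟩
  · refine h1 x hx y hy h3 ?_
    have := congrArg g h4
    simpa [hg] using this
  · simp only [hg]; exact h2 x hx y hy z hz

end Pool.Agent.H133Z.Conf
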