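import Pool.Agent.H133Z.ConfCode

set_option autoImplicit false

namespace Pool.Agent.H133Z.Conf

open SignType

lemma genPos_insert {P : Finset (ℝ × ℝ)} {x : ℝ × ℝ} (hP : GenPos P)
    (hx : ∀ a ∈ P, ∀ b ∈ P, a ≠ b → det a b x ≠ 0) : GenPos (insert x P) := by
  intro a ha b hb c hc hab hac hbc
  rw [Finset.mem_insert] at ha hb hc
  rcases ha with rfl | ha <;> rcases hb with rfl | hb <;> rcases hc with rfl | hc
  · exact absurd rfl hab
  · exact absurd rfl hab
  · exact absurd rfl hac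
  · rw [Ne, orient_eq_zero, det_cyc]; exact hx b hb c hc hbc
  · exact absurd rfl hbc
  · rw [Ne, orient_eq_zero, det_swap, neg_eq_zero]; exact hx a ha c hc hac
  · rw [Ne, orient_eq_zero]; exact hx a ha b hb hab
  · exact hP a ha b hb c hc hab hac hbc

lemma det_left (a b : ℝ × ℝ) : det a b a = 0 := by unfold det; ring
lemma det_right (a b : ℝ × ℝ) : det a b b = 0 := by unfold det; ring

/-- two different lines share at most one point -/
lemma card_inter_le (S : Finset (ℝ × ℝ)) {u v c d : ℝ × ℝ} (h : u ≠ v) (h' : c ≠ d)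
    (hne : ¬ (det u v c = 0 ∧ det u v d = 0)) :
    (S.filter (fun x => det u v x = 0 ∧ det c d x = 0)).card ≤ 1 := by
  rw [Finset.card_le_one]
  intro x hx y hy
  rw [Finset.mem_filter] at hx hy
  by_contra hxy
  apply hne
  have h1 := same_line h hxy hx.2.1 hy.2.1
  have h2 := same_line h' hxy hx.2.2 hy.2.2
  exact ⟨(h1 c).1 ((h2 c).2 (det_left c d)), (h1 d).1 ((h2 d).2 (det_right c d))⟩

/-- the line through `u`, `v` holds at least 32 points of `S` -/
def Rich (S : Finset (ℝ × ℝ)) (u v : ℝ × ℝ) : Prop :=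
  u ≠ v ∧ 32 ≤ (S.filter (fun x => det u v x = 0)).card

lemma extend {S P : Finset (ℝ × ℝ)} {u v u' v' : ℝ × ℝ} (hr : Rich S u v) (h' : u' ≠ v')
    (hne : ¬ (det u v u' = 0 ∧ det u v v' = 0)) (hP : GenPos P) (hc : P.card ≤ 5)
    (h1 : ∀ c ∈ P, ∀ d ∈ P, det u v c = 0 → det u v d = 0 → c = d) :
    ∃ x ∈ S, x ∉ P ∧ det u v x = 0 ∧ det u' v' x ≠ 0 ∧ GenPos (insert x P) := by
  classical
  let B : Finset (ℝ × ℝ) := P ∪ S.filter (fun x => det u v x = 0 ∧ det u' v' x = 0) ∪
    (P.offDiag).biUnion (fun cd => S.filter (fun x => det u v x = 0 ∧ det cd.1 cd.2 x = 0))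
  have hB : B.card ≤ 31 := by
    have a1 := card_inter_le S hr.1 h' hne
    have a2 : ((P.offDiag).biUnion
        (fun cd => S.filter (fun x => det u v x = 0 ∧ det cd.1 cd.2 x = 0))).card
          ≤ P.offDiag.card * 1 := by
      apply Finset.card_biUnion_le_card_mul
      intro cd hcd
      rw [Finset.mem_offDiag] at hcd
      exact card_inter_le S hr.1 hcd.2.2 fun h => hcd.2.2 (h1 _ hcd.1 _ hcd.2.1 h.1 h.2)
    have a3 : P.offDiag.card ≤ 25 := by
      rw [Finset.offDiag_card]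
      have : P.card * P.card ≤ 5 * 5 := Nat.mul_le_mul hc hc
      omega
    have a4 := Finset.card_union_le (P ∪ S.filter (fun x => det u v x = 0 ∧ det u' v' x = 0))
      ((P.offDiag).biUnion (fun cd => S.filter (fun x => det u v x = 0 ∧ det cd.1 cd.2 x = 0)))
    have a5 := Finset.card_union_le P (S.filter (fun x => det u v x = 0 ∧ det u' v' x = 0))
    simp only [B]
    omega
  have hlt : B.card < (S.filter (fun x => det u v x = 0)).card := by
    have := hr.2; omega
  obtain ⟨x, hx, hxB⟩ := Finset.exists_mem_notMem_of_card_lt_card hlt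
  rw [Finset.mem_filter] at hx
  simp only [B, Finset.mem_union, Finset.mem_filter, Finset.mem_biUnion, Finset.mem_offDiag,
    not_or, not_exists, not_and] at hxB
  refine ⟨x, hx.1, hxB.1.1, hx.2, hxB.1.2 hx.1 hx.2, genPos_insert hP fun a ha b hb hab => ?_⟩
  exact hxB.2 (a, b) ⟨ha, hb, hab⟩ hx.1 hx.2

lemma ne_symm_line {u v u' v' : ℝ × ℝ} (h : u ≠ v) (h' : u' ≠ v')
    (hne : ¬ (det u v u' = 0 ∧ det u v v' = 0)) : ¬ (det u' v' u = 0 ∧ det u' v' v = 0) := by
  intro h1
  apply hne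
  have h2 := same_line h' h h1.1 h1.2
  exact ⟨(h2 u').2 (det_left _ _), (h2 v').2 (det_right _ _)⟩

/-- off two rich lines there is at most one point -/
lemma off_two {S : Finset (ℝ × ℝ)} (hS : NoGen 6 S) {u v u' v' : ℝ × ℝ} (hr : Rich S u v)
    (hr' : Rich S u' v') (hne : ¬ (det u v u' = 0 ∧ det u v v' = 0)) {p q : ℝ × ℝ}
    (hp : p ∈ S) (hq : q ∈ S) (p1 : det u v p ≠ 0) (p2 : det u' v' p ≠ 0)
    (q1 : det u v q ≠ 0) (q2 : det u' v' q ≠ 0) : p = q := by
  classical
  by_contra hpq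
  have hne' := ne_symm_line hr.1 hr'.1 hne
  have g0 : GenPos {p, q} := by
    intro a ha b hb c hc hab hac hbc
    simp only [Finset.mem_insert, Finset.mem_singleton] at ha hb hc
    rcases ha with rfl | rfl <;> rcases hb with rfl | rfl <;> rcases hc with rfl | rfl <;> tauto
  have c0 : ({p, q} : Finset (ℝ × ℝ)).card = 2 := Finset.card_pair hpq
  obtain ⟨a, ha, an, a1, a2, g1⟩ := extend hr hr'.1 hne g0 (by omega) (by
    intro c hc d hd h1 h2
    simp only [Finset.mem_insert, Finset.mem_singleton] at hc hd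
    rcases hc with rfl | rfl <;> tauto)
  have c1 := Finset.card_insert_of_notMem an
  obtain ⟨a', ha', an', a1', a2', g2⟩ := extend hr hr'.1 hne g1 (by omega) (by
    intro c hc d hd h1 h2
    simp only [Finset.mem_insert, Finset.mem_singleton] at hc hd
    rcases hc with rfl | rfl | rfl <;> rcases hd with rfl | rfl | rfl <;> tauto)
  have c2 := Finset.card_insert_of_notMem an'
  obtain ⟨b, hb, bn, b1, b2, g3⟩ := extend hr' hr.1 hne' g2 (by omega) (by
    intro c hc d hd h1 h2
    simp only [Finset.mem_insert, Finset.mem_singleton] at hc hd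
    rcases hc with rfl | rfl | rfl | rfl <;> tauto)
  have c3 := Finset.card_insert_of_notMem bn
  obtain ⟨b', hb', bn', b1', b2', g4⟩ := extend hr' hr.1 hne' g3 (by omega) (by
    intro c hc d hd h1 h2
    simp only [Finset.mem_insert, Finset.mem_singleton] at hc hd
    rcases hc with rfl | rfl | rfl | rfl | rfl <;> rcases hd with rfl | rfl | rfl | rfl | rfl <;>
      tauto)
  have c4 := Finset.card_insert_of_notMem bn'
  have hsub : insert b' (insert b (insert a' (insert a ({p, q} : Finset (ℝ × ℝ))))) ⊆ S := by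
    intro x hx
    simp only [Finset.mem_insert, Finset.mem_singleton] at hx
    rcases hx with rfl | rfl | rfl | rfl | rfl | rfl <;> assumption
  have := hS _ hsub g4
  omega

lemma exists_off {u v u' v' : ℝ × ℝ} (h : u ≠ v) (h' : u' ≠ v') :
    ∃ p, det u v p ≠ 0 ∧ det u' v' p ≠ 0 := by
  by_contra hc
  push Not at hc
  have n1 : det u v (u.1 - (v.2 - u.2), u.2 + (v.1 - u.1)) ≠ 0 := by
    have := sq_pos h
    unfold det sq at *
    simp only
    nlinarith
  have n2 : det u v (v.1 - (v.2 - u.2), v.2 + (v.1 - u.1)) ≠ 0 := by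
    have := sq_pos h
    unfold det sq at *
    simp only
    nlinarith
  have n3 : det u v (u.1 - 2 * (v.2 - u.2), u.2 + 2 * (v.1 - u.1)) ≠ 0 := by
    have := sq_pos h
    unfold det sq at *
    simp only
    nlinarith
  have m1 := hc _ n1
  have m2 := hc _ n2
  have m3 := hc _ n3
  have hne : (u.1 - (v.2 - u.2), u.2 + (v.1 - u.1)) ≠ (v.1 - (v.2 - u.2), v.2 + (v.1 - u.1)) := by
    intro h1
    apply h
    rw [Prod.ext_iff] at h1
    simp only at h1
    ext <;> linarith [h1.1, h1.2]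
  have m4 := (same_line h' hne m1 m2 _).2 m3
  have := sq_pos h
  unfold det sq at *
  simp only at m4
  nlinarith

lemma cover {S : Finset (ℝ × ℝ)} (hS : NoGen 6 S) :
    ∃ G : Finset (ℝ × ℝ), G.card ≤ 5 ∧ ∀ x ∈ S, x ∈ G ∨ ∃ a ∈ G, ∃ b ∈ G, a ≠ b ∧ det a b x = 0 := by
  classical
  obtain ⟨G, hG, hmax⟩ := Finset.exists_max_image (S.powerset.filter GenPos) Finset.card
    ⟨∅, by simp [GenPos]⟩
  rw [Finset.mem_filter, Finset.mem_powerset] at hG
  refine ⟨G, by have := hS G hG.1 hG.2; omega, fun x hx => ?_⟩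
  by_contra hc
  push Not at hc
  have h1 := hmax (insert x G) (by
    rw [Finset.mem_filter, Finset.mem_powerset]
    exact ⟨Finset.insert_subset hx hG.1, genPos_insert hG.2 hc.2⟩)
  rw [Finset.card_insert_of_notMem hc.1] at h1
  omega

/-- structure of the sets without six points in general position -/
theorem structure_six {S : Finset (ℝ × ℝ)} (hS : NoGen 6 S) :
    (∃ u v, u ≠ v ∧ (S.filter (fun x => det u v x ≠ 0)).card ≤ 779 + 1) ∨
    (∃ u v u' v' p, u ≠ v ∧ u' ≠ v' ∧ det u v p ≠ 0 ∧ det u' v' p ≠ 0 ∧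
      ∀ x ∈ S, x ≠ p → det u v x = 0 ∨ det u' v' x = 0) := by
  classical
  by_cases h2 : ∃ u v u' v', Rich S u v ∧ Rich S u' v' ∧ ¬ (det u v u' = 0 ∧ det u v v' = 0)
  · right
    obtain ⟨u, v, u', v', hr, hr', hne⟩ := h2
    by_cases h3 : ∃ p ∈ S, det u v p ≠ 0 ∧ det u' v' p ≠ 0
    · obtain ⟨p, hp, p1, p2⟩ := h3
      refine ⟨u, v, u', v', p, hr.1, hr'.1, p1, p2, fun x hx hxp => ?_⟩
      by_contra hc
      push Not at hc
      exact hxp (off_two hS hr hr' hne hx hp hc.1 hc.2 p1 p2)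
    · obtain ⟨p, p1, p2⟩ := exists_off hr.1 hr'.1
      refine ⟨u, v, u', v', p, hr.1, hr'.1, p1, p2, fun x hx _ => ?_⟩
      by_contra hc
      push Not at hc
      exact h3 ⟨x, hx, hc.1, hc.2⟩
  · left
    push Not at h2
    have h3 : ∃ u v : ℝ × ℝ, u ≠ v ∧ ∀ a b, Rich S a b → det u v a = 0 ∧ det u v b = 0 := by
      by_cases h4 : ∃ u v, Rich S u v
      · obtain ⟨u, v, hr⟩ := h4
        exact ⟨u, v, hr.1, fun a b h => h2 u v a b hr h⟩
      · exact ⟨(0, 0), (1, 0), by simp, fun a b h => absurd ⟨a, b, h⟩ h4⟩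
    obtain ⟨u, v, huv, h4⟩ := h3
    obtain ⟨G, hG, hcov⟩ := cover hS
    refine ⟨u, v, huv, ?_⟩
    have hsub : S.filter (fun x => det u v x ≠ 0) ⊆ G ∪
        (G.offDiag.filter (fun ab => ¬ Rich S ab.1 ab.2)).biUnion
          (fun ab => S.filter (fun x => det ab.1 ab.2 x = 0)) := by
      intro x hx
      rw [Finset.mem_filter] at hx
      rcases hcov x hx.1 with h | ⟨a, ha, b, hb, hab, h⟩
      · exact Finset.mem_union_left _ h
      · refine Finset.mem_union_right _ (Finset.mem_biUnion.2 ⟨(a, b), ?_, ?_⟩)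
        · rw [Finset.mem_filter, Finset.mem_offDiag]
          refine ⟨⟨ha, hb, hab⟩, fun hr => hx.2 ?_⟩
          exact (same_line huv hab (h4 a b hr).1 (h4 a b hr).2 x).1 h
        · exact Finset.mem_filter.2 ⟨hx.1, h⟩
    have a2 : ((G.offDiag.filter (fun ab => ¬ Rich S ab.1 ab.2)).biUnion
          (fun ab => S.filter (fun x => det ab.1 ab.2 x = 0))).card ≤
          (G.offDiag.filter (fun ab => ¬ Rich S ab.1 ab.2)).card * 31 := by
      apply Finset.card_biUnion_le_card_mul
      intro ab hab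
      rw [Finset.mem_filter, Finset.mem_offDiag] at hab
      by_contra hc
      exact hab.2 ⟨hab.1.2.2, by omega⟩
    have a3 : G.offDiag.card ≤ 25 := by
      rw [Finset.offDiag_card]
      have : G.card * G.card ≤ 5 * 5 := Nat.mul_le_mul hG hG
      omega
    have a4 := Finset.card_filter_le G.offDiag (fun ab => ¬ Rich S ab.1 ab.2)
    have a5 := Finset.card_le_card hsub
    have a6 := Finset.card_union_le G ((G.offDiag.filter (fun ab => ¬ Rich S ab.1 ab.2)).biUnion
          (fun ab => S.filter (fun x => det ab.1 ab.2 x = 0)))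
    omega

theorem wqo_six (S : ℕ → Finset (ℝ × ℝ)) (hS : ∀ n, NoGen 6 (S n)) :
    ∃ i j, i < j ∧ SubConf (S i) (S j) := by
  apply wqo_codable (Λ := ((Fin (779 + 1) → Fin (779 + 1) → SignType) ⊕ Fin (779 + 1)) ⊕
    Option (SignType × SignType × SignType))
  intro n
  rcases structure_six (hS n) with ⟨u, v, h, hc⟩ | ⟨u, v, u', v', p, h, h', p1, p2, hc⟩
  · exact (codable_one 779 _ h hc).map Sum.inl (Sum.elim id (fun _ => Sum.inr 0)) (fun _ => rfl)
  · exact (codable_two _ h h' p1 p2 hc).map Sum.inr (Sum.elim (fun _ => none) id) (fun _ => rfl)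

end Pool.Agent.H133Z.Conf
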