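import Pool.Agent.Helper298.Oracle

set_option autoImplicit false

namespace Pool.Agent.H133Z.Gam

section prim
variable {α β γ : Type} [Primcodable α] [Primcodable β] [Primcodable γ]

attribute [fun_prop] Primrec

@[fun_prop] theorem pr_id : Primrec (fun a : α => a) := Primrec.id
@[fun_prop] theorem pr_const (b : β) : Primrec (fun _ : α => b) := Primrec.const b
@[fun_prop] theorem pr_comp {f : β → γ} {g : α → β} (hf : Primrec f) (hg : Primrec g) :
    Primrec (fun a => f (g a)) := hf.comp hg
@[fun_prop] theorem pr_pair {f : α → β} {g : α → γ} (hf : Primrec f) (hg : Primrec g) :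
    Primrec (fun a => (f a, g a)) := hf.pair hg
@[fun_prop] theorem pr_fst {f : α → β × γ} (hf : Primrec f) : Primrec (fun a => (f a).1) :=
  Primrec.fst.comp hf
@[fun_prop] theorem pr_snd {f : α → β × γ} (hf : Primrec f) : Primrec (fun a => (f a).2) :=
  Primrec.snd.comp hf
@[fun_prop] theorem pr_add {f g : α → ℕ} (hf : Primrec f) (hg : Primrec g) :
    Primrec (fun a => f a + g a) := Primrec.nat_add.comp hf hg
@[fun_prop] theorem pr_sub {f g : α → ℕ} (hf : Primrec f) (hg : Primrec g) :
    Primrec (fun a => f a - g a) := Primrec.nat_sub.comp hf hg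
@[fun_prop] theorem pr_mul {f g : α → ℕ} (hf : Primrec f) (hg : Primrec g) :
    Primrec (fun a => f a * g a) := Primrec.nat_mul.comp hf hg
@[fun_prop] theorem pr_div {f g : α → ℕ} (hf : Primrec f) (hg : Primrec g) :
    Primrec (fun a => f a / g a) := Primrec.nat_div.comp hf hg
@[fun_prop] theorem pr_mod {f g : α → ℕ} (hf : Primrec f) (hg : Primrec g) :
    Primrec (fun a => f a % g a) := Primrec.nat_mod.comp hf hg
@[fun_prop] theorem pr_sqrt {f : α → ℕ} (hf : Primrec f) :
    Primrec (fun a => Nat.sqrt (f a)) := Primrec.nat_sqrt.comp hf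

theorem pr_pow2 : Primrec₂ (fun a b : ℕ => a ^ b) := Primrec₂.unpaired'.1 Nat.Primrec.pow

@[fun_prop] theorem pr_pow {f g : α → ℕ} (hf : Primrec f) (hg : Primrec g) :
    Primrec (fun a => f a ^ g a) := pr_pow2.comp hf hg

theorem pp_lt {f g : α → ℕ} (hf : Primrec f) (hg : Primrec g) :
    PrimrecPred (fun a => f a < g a) := Primrec.nat_lt.comp hf hg

theorem pp_le {f g : α → ℕ} (hf : Primrec f) (hg : Primrec g) :
    PrimrecPred (fun a => f a ≤ g a) := Primrec.nat_le.comp hf hg

theorem pp_eq {f g : α → ℕ} (hf : Primrec f) (hg : Primrec g) :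
    PrimrecPred (fun a => f a = g a) := Primrec.eq.comp hf hg

theorem pp_ball {f : α → ℕ} {R : ℕ → α → Prop} (hf : Primrec f)
    (hR : PrimrecPred (fun p : ℕ × α => R p.1 p.2)) :
    PrimrecPred (fun a => ∀ x, x < f a → R x a) := by
  have h : PrimrecRel (fun (L : List ℕ) (b : α) => ∀ a ∈ L, R a b) :=
    PrimrecRel.forall_mem_list hR
  have h2 : PrimrecPred (fun a => ∀ x ∈ List.range (f a), R x a) :=
    PrimrecRel.comp h (Primrec.list_range.comp hf) Primrec.id
  exact h2.of_eq fun a => by simp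

@[fun_prop] theorem pr_testBit {f g : α → ℕ} (hf : Primrec f) (hg : Primrec g) :
    Primrec (fun a => (f a).testBit (g a)) := by
  have h : PrimrecPred (fun a => f a / 2 ^ g a % 2 = 1) := pp_eq (by fun_prop) (by fun_prop)
  exact h.decide.of_eq fun a => by rw [Nat.testBit_eq_decide_div_mod_eq]

@[fun_prop] theorem pr_getD {f : α → List ℕ} {g : α → ℕ} (hf : Primrec f) (hg : Primrec g) :
    Primrec (fun a => (f a).getD (g a) 0) := (Primrec.list_getD 0).comp hf hg

@[fun_prop] theorem pr_length {f : α → List β} (hf : Primrec f) :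
    Primrec (fun a => (f a).length) := Primrec.list_length.comp hf

theorem pr_filter {f : α → ℕ} {R : α → ℕ → Prop} [DecidableRel R] (hf : Primrec f)
    (hR : PrimrecPred (fun p : α × ℕ => R p.1 p.2)) :
    Primrec (fun a => (List.range (f a)).filter (fun j => decide (R a j))) := by
  have h1 : PrimrecRel (fun (j : ℕ) (a : α) => R a j) :=
    hR.comp (f := fun p : ℕ × α => (p.2, p.1)) (by fun_prop)
  exact (PrimrecRel.listFilter h1).comp (Primrec.list_range.comp hf) Primrec.id

end prim

lemma length_filter_range (R : ℕ → Prop) [DecidablePred R] (n : ℕ) :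
    ((List.range n).filter (fun j => decide (R j))).length = ((Finset.range n).filter R).card := by
  rw [← List.countP_eq_length_filter, Finset.card_def, Finset.filter_val,
    ← Multiset.countP_eq_card_filter, Finset.range_val]
  rfl

/-- binary logarithm -/
def lg (n : ℕ) : ℕ := Nat.findGreatest (fun j => 2 ^ j ≤ n) n

@[fun_prop] theorem pr_lg {α : Type} [Primcodable α] {f : α → ℕ} (hf : Primrec f) :
    Primrec (fun a => lg (f a)) := by
  have h : Primrec lg := Primrec.nat_findGreatest (p := fun n j => 2 ^ j ≤ n) Primrec.id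
    (pp_le (f := fun p : ℕ × ℕ => 2 ^ p.2) (g := fun p => p.1) (by fun_prop) (by fun_prop))
  exact h.comp hf

lemma lg_eq {n s : ℕ} (h1 : 2 ^ s ≤ n) (h2 : n < 2 ^ (s + 1)) : lg n = s := by
  unfold lg
  rw [Nat.findGreatest_eq_iff]
  refine ⟨(Nat.lt_two_pow_self.le).trans h1, fun _ => h1, fun j hj _ hle => ?_⟩
  have : 2 ^ (s + 1) ≤ 2 ^ j := Nat.pow_le_pow_right (by norm_num) hj
  omega

lemma lg_bounds {n a b : ℕ} (h1 : 2 ^ a ≤ n) (h2 : n < 2 ^ b) : a ≤ lg n ∧ lg n < b := by
  have hn : n ≠ 0 := by have : 0 < 2 ^ a := by positivity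
                        omega
  have e := lg_eq (Nat.pow_log_le_self 2 hn) (Nat.lt_pow_succ_log_self (by norm_num) n)
  rw [e]
  exact ⟨Nat.le_log_of_pow_le (by norm_num) h1, Nat.log_lt_of_lt_pow hn h2⟩

/-- the number whose binary digits are the first values of `A` -/
def bs (A : ℕ → Bool) : ℕ → ℕ
  | 0 => 0
  | L + 1 => 2 ^ L * (A L).toNat + bs A L

lemma bs_lt (A : ℕ → Bool) (L : ℕ) : bs A L < 2 ^ L := by
  induction L with
  | zero => simp [bs]
  | succ L ih =>
    have : (A L).toNat ≤ 1 := Bool.toNat_le _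
    have h2 : 2 ^ L * (A L).toNat ≤ 2 ^ L * 1 := Nat.mul_le_mul_left _ this
    simp only [bs, pow_succ]; omega

lemma testBit_bs (A : ℕ → Bool) {L j : ℕ} (h : j < L) : (bs A L).testBit j = A j := by
  induction L with
  | zero => omega
  | succ L ih =>
    simp only [bs]
    rw [Nat.testBit_two_pow_mul_add _ (bs_lt A L)]
    split_ifs with h1
    · exact ih h1
    · have : j = L := by omega
      subst this
      cases A j <;> simp

lemma computable_bs {A : ℕ → Bool} (hA : Computable A) : Computable (bs A) := by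
  have h1 : Primrec (fun p : (ℕ × Bool) × ℕ => 2 ^ p.1.1 * p.1.2.toNat + p.2) := by
    have : Primrec (fun p : (ℕ × Bool) × ℕ => p.1.2.toNat) :=
      (Primrec.dom_bool Bool.toNat).comp (by fun_prop)
    fun_prop
  have h2 : Computable₂ (fun (_ : ℕ) (p : ℕ × ℕ) => 2 ^ p.1 * (A p.1).toNat + p.2) :=
    h1.to_comp.comp (f := fun p : (ℕ × Bool) × ℕ => 2 ^ p.1.1 * p.1.2.toNat + p.2)
      (g := fun q : ℕ × ℕ × ℕ => ((q.2.1, A q.2.1), q.2.2))
      (((Computable.fst.comp Computable.snd).pair
        (hA.comp (Computable.fst.comp Computable.snd))).pair (Computable.snd.comp Computable.snd))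
  refine (Computable.nat_rec Computable.id (Computable.const 0) h2).of_eq fun n => ?_
  induction n with
  | zero => rfl
  | succ n ih => simp only [id] at ih ⊢; simp only [bs, ih]

/-- Turing reducibility of total functions -/
def RC (f g : ℕ → ℕ) : Prop :=
  TuringReducible (fun n => Part.some (f n)) (fun n => Part.some (g n))

lemma RC.trans {f g h : ℕ → ℕ} (h1 : RC f g) (h2 : RC g h) : RC f h := TuringReducible.trans h1 h2

lemma rc_of_tt {f g : ℕ → ℕ} {Φ : ℕ → List ℕ → ℕ} {u : ℕ → ℕ} (hΦ : Computable₂ Φ)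
    (hu : Computable u) (hf : ∀ n, f n = Φ n ((List.range (u n)).map g)) : RC f g :=
  Pool.Agent.Helper298.Oracle.red_of_tt hΦ hu hf

lemma getD_prefix (g : ℕ → ℕ) {u j : ℕ} (h : j < u) : ((List.range u).map g).getD j 0 = g j := by
  simp [List.getD_eq_getElem?_getD, h]

end Pool.Agent.H133Z.Gam
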