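import Pool.Agent.H133Z.GamBase

set_option autoImplicit false

namespace Pool.Agent.H133Z.Gam

open Finset

lemma ball_bound {N r : ℕ} (g : Fin N → Bool) :
    (univ.filter (fun f : Fin N → Bool => hammingDist f g ≤ r)).card * 3 ^ (N - r) ≤ 4 ^ N := by
  have h1 : ∑ f : Fin N → Bool, ∏ j, (if f j = g j then 3 else 1) = 4 ^ N := by
    rw [← Fintype.piFinset_univ, ← Finset.prod_univ_sum (fun _ => univ)
      (fun j b => if b = g j then 3 else 1)]
    have : ∀ j : Fin N, ∑ b : Bool, (if b = g j then 3 else 1) = 4 := by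
      intro j; cases g j <;> simp
    rw [Finset.prod_congr rfl (fun j _ => this j)]
    simp
  rw [← h1, ← smul_eq_mul, ← Finset.sum_const]
  refine le_trans (Finset.sum_le_sum fun f hf => ?_)
    (Finset.sum_le_sum_of_subset (Finset.filter_subset _ _))
  rw [Finset.mem_filter] at hf
  rw [Finset.prod_ite, Finset.prod_const, Finset.prod_const_one, mul_one]
  apply Nat.pow_le_pow_right (by norm_num)
  have h2 := Finset.card_filter_add_card_filter_not (s := (univ : Finset (Fin N)))
    (fun j => f j = g j)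
  have h3 := hf.2
  unfold hammingDist at h3
  simp only [Finset.card_univ, Fintype.card_fin] at h2
  simp only [ne_eq] at h3
  omega

lemma exists_code {L : ℕ} (hL : 1 ≤ L) (M : ℕ) (hM : M ≤ 2 ^ L) :
    ∃ w : ℕ → Fin (8 * L) → Bool, ∀ x < M, ∀ y < M, x ≠ y → L < hammingDist (w x) (w y) := by
  induction M with
  | zero => exact ⟨fun _ _ => false, fun x hx => absurd hx (by omega)⟩
  | succ M ih =>
    obtain ⟨w, hw⟩ := ih (by omega)
    have hlt : ((range M).biUnion (fun x => univ.filter
        (fun f : Fin (8 * L) → Bool => hammingDist f (w x) ≤ L))).card <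
        (univ : Finset (Fin (8 * L) → Bool)).card := by
      rw [Finset.card_univ, Fintype.card_fun, Fintype.card_bool, Fintype.card_fin]
      have h3 : 0 < 3 ^ (8 * L - L) := by positivity
      refine Nat.lt_of_mul_lt_mul_right (a := 3 ^ (8 * L - L)) ?_
      calc _ ≤ (∑ x ∈ range M, (univ.filter
            (fun f : Fin (8 * L) → Bool => hammingDist f (w x) ≤ L)).card) * 3 ^ (8 * L - L) :=
            Nat.mul_le_mul_right _ Finset.card_biUnion_le
        _ ≤ ∑ _x ∈ range M, 4 ^ (8 * L) := by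
            rw [Finset.sum_mul]; exact Finset.sum_le_sum fun x _ => ball_bound (w x)
        _ = M * 4 ^ (8 * L) := by simp
        _ ≤ 2 ^ L * 4 ^ (8 * L) := Nat.mul_le_mul_right _ (by omega)
        _ = 2 ^ (8 * L) * 512 ^ L := by
            have e1 : 4 ^ (8 * L) = 2 ^ (8 * L) * 256 ^ L := by
              rw [show (4 : ℕ) = 2 * 2 from rfl, mul_pow, pow_mul 2 8 L]; norm_num
            rw [e1, show (512 : ℕ) = 2 * 256 from rfl, mul_pow]; ring
        _ < 2 ^ (8 * L) * 3 ^ (8 * L - L) := by
            apply Nat.mul_lt_mul_of_pos_left _ (by positivity)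
            rw [show 8 * L - L = 7 * L by omega, pow_mul]
            exact Nat.pow_lt_pow_left (by norm_num) (by omega)
    obtain ⟨f, -, hf⟩ := Finset.exists_mem_notMem_of_card_lt_card hlt
    simp only [Finset.mem_biUnion, Finset.mem_range, Finset.mem_filter, Finset.mem_univ, true_and,
      not_exists, not_and, not_le] at hf
    refine ⟨Function.update w M f, fun x hx y hy hxy => ?_⟩
    by_cases h1 : x = M <;> by_cases h2 : y = M
    · omega
    · subst h1
      rw [Function.update_self, Function.update_of_ne h2]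
      exact hf y (by omega)
    · subst h2
      rw [Function.update_self, Function.update_of_ne h1, hammingDist_comm]
      exact hf x (by omega)
    · rw [Function.update_of_ne h1, Function.update_of_ne h2]
      exact hw x (by omega) y (by omega) hxy

/-- message length at level `m` -/
def Lm (m : ℕ) : ℕ := 2 ^ (3 * m + 2)
/-- block length at level `m` -/
def Nm (m : ℕ) : ℕ := 2 ^ (3 * m + 5)

lemma Nm_eq (m : ℕ) : Nm m = 8 * Lm m := by unfold Nm Lm; ring

@[fun_prop] theorem pr_Lm {α : Type} [Primcodable α] {f : α → ℕ} (hf : Primrec f) :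
    Primrec (fun a => Lm (f a)) := by unfold Lm; fun_prop
@[fun_prop] theorem pr_Nm {α : Type} [Primcodable α] {f : α → ℕ} (hf : Primrec f) :
    Primrec (fun a => Nm (f a)) := by unfold Nm; fun_prop

/-- distance of two words of the table `c` -/
def dst (c m x y : ℕ) : ℕ := ((List.range (Nm m)).filter
  (fun j => decide (c.testBit (x * Nm m + j) ≠ c.testBit (y * Nm m + j)))).length

/-- `c` is the table of a code with large distance -/
def Good (m c : ℕ) : Prop := ∀ x, x < 2 ^ Lm m → ∀ y, y < 2 ^ Lm m → x = y ∨ Lm m < dst c m x y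

instance (m : ℕ) : DecidablePred (Good m) := fun c => by unfold Good; infer_instance

lemma pp_ne {α : Type} [Primcodable α] {f g : α → Bool} (hf : Primrec f) (hg : Primrec g) :
    PrimrecPred (fun a => f a ≠ g a) := (Primrec.eq.comp hf hg).not

@[fun_prop] theorem pr_dst {α : Type} [Primcodable α] {c m x y : α → ℕ} (hc : Primrec c)
    (hm : Primrec m) (hx : Primrec x) (hy : Primrec y) :
    Primrec (fun a => dst (c a) (m a) (x a) (y a)) := by
  unfold dst
  apply pr_length
  exact pr_filter (R := fun a j => (c a).testBit (x a * Nm (m a) + j) ≠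
    (c a).testBit (y a * Nm (m a) + j)) (by fun_prop) (pp_ne (by fun_prop) (by fun_prop))

lemma pp_Good : PrimrecRel Good := by
  unfold Good PrimrecRel
  refine pp_ball (R := fun x (p : ℕ × ℕ) => ∀ y, y < 2 ^ Lm p.1 → x = y ∨ Lm p.1 < dst p.2 p.1 x y)
    (by fun_prop) ?_
  refine pp_ball (R := fun y (q : ℕ × ℕ × ℕ) => q.1 = y ∨ Lm q.2.1 < dst q.2.2 q.2.1 q.1 y)
    (by fun_prop) ?_
  exact (pp_eq (by fun_prop) (by fun_prop)).or (pp_lt (by fun_prop) (by fun_prop))

/-- the table of the code at level `m` -/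
def code (m : ℕ) : ℕ := Nat.findGreatest (Good m) (2 ^ (2 ^ Lm m * Nm m))

@[fun_prop] theorem pr_code {α : Type} [Primcodable α] {f : α → ℕ} (hf : Primrec f) :
    Primrec (fun a => code (f a)) := by
  have h : Primrec code := Primrec.nat_findGreatest (by fun_prop) pp_Good
  exact h.comp hf

lemma good_code (m : ℕ) : Good m (code m) := by
  have hL : 1 ≤ Lm m := Nat.one_le_two_pow
  obtain ⟨w, hw⟩ := exists_code hL (2 ^ Lm m) le_rfl
  have hN : 0 < 8 * Lm m := by omega
  let A : ℕ → Bool := fun i => w (i / (8 * Lm m)) ⟨i % (8 * Lm m), Nat.mod_lt _ hN⟩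
  refine Nat.findGreatest_spec (P := Good m) (bs_lt A _).le ?_
  intro x hx y hy
  by_cases hxy : x = y
  · exact Or.inl hxy
  right
  have key : ∀ z < 2 ^ Lm m, ∀ j (hj : j < 8 * Lm m),
      (bs A (2 ^ Lm m * Nm m)).testBit (z * Nm m + j) = w z ⟨j, hj⟩ := by
    intro z hz j hj
    rw [testBit_bs]
    · simp only [A, Nm_eq]
      have e1 : (z * (8 * Lm m) + j) / (8 * Lm m) = z := by
        rw [mul_comm z, Nat.mul_add_div hN, Nat.div_eq_of_lt hj, add_zero]
      have e2 : (z * (8 * Lm m) + j) % (8 * Lm m) = j := by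
        rw [mul_comm z, Nat.mul_add_mod, Nat.mod_eq_of_lt hj]
      simp only [e1, e2]
    · rw [Nm_eq]
      have : (z + 1) * (8 * Lm m) ≤ 2 ^ Lm m * (8 * Lm m) := Nat.mul_le_mul_right _ hz
      nlinarith
  have h1 := hw x hx y hy hxy
  unfold dst
  rw [length_filter_range (fun j => (bs A (2 ^ Lm m * Nm m)).testBit (x * Nm m + j) ≠
    (bs A (2 ^ Lm m * Nm m)).testBit (y * Nm m + j))]
  refine lt_of_lt_of_le h1 ?_
  unfold hammingDist
  refine Finset.card_le_card_of_injOn (fun j => (j : ℕ)) (fun j hj => ?_)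
    (fun a _ b _ h => Fin.ext h)
  simp only [Finset.coe_filter, Finset.mem_univ, true_and, Set.mem_ofPred_eq, Finset.mem_range] at hj ⊢
  refine ⟨by rw [Nm_eq]; exact j.2, ?_⟩
  rw [key x hx j j.2, key y hy j j.2]
  exact hj

/-- distance of the block of `Y` at level `m` from the word `x` -/
def dY (Y : ℕ → Bool) (m x : ℕ) : ℕ :=
  ((range (Nm m)).filter (fun j => (code m).testBit (x * Nm m + j) ≠ Y (Nm m + j))).card

lemma dY_unique (Y : ℕ → Bool) {m x y : ℕ} (hx : x < 2 ^ Lm m) (hy : y < 2 ^ Lm m)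
    (h1 : 2 * dY Y m x ≤ Lm m) (h2 : 2 * dY Y m y ≤ Lm m) : x = y := by
  rcases good_code m x hx y hy with h | h
  · exact h
  exfalso
  unfold dst at h
  rw [length_filter_range (fun j => (code m).testBit (x * Nm m + j) ≠
    (code m).testBit (y * Nm m + j))] at h
  have h3 : (range (Nm m)).filter (fun j => (code m).testBit (x * Nm m + j) ≠
      (code m).testBit (y * Nm m + j)) ⊆
      (range (Nm m)).filter (fun j => (code m).testBit (x * Nm m + j) ≠ Y (Nm m + j)) ∪
      (range (Nm m)).filter (fun j => (code m).testBit (y * Nm m + j) ≠ Y (Nm m + j)) := by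
    intro j hj
    simp only [Finset.mem_union, Finset.mem_filter] at hj ⊢
    by_contra hc
    push Not at hc
    exact hj.2 ((hc.1 hj.1).trans (hc.2 hj.1).symm)
  have h4 := (Finset.card_le_card h3).trans (Finset.card_union_le _ _)
  unfold dY at h1 h2
  omega

/-- decoding -/
def dec (Y : ℕ → Bool) (m : ℕ) : ℕ :=
  Nat.findGreatest (fun x => 2 * dY Y m x ≤ Lm m) (2 ^ Lm m - 1)

lemma dec_eq (Y : ℕ → Bool) {m x : ℕ} (hx : x < 2 ^ Lm m) (h : 2 * dY Y m x ≤ Lm m) :
    dec Y m = x := by
  have h1 : 2 * dY Y m (dec Y m) ≤ Lm m :=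
    Nat.findGreatest_spec (P := fun x => 2 * dY Y m x ≤ Lm m) (m := x) (by omega) h
  have h2 : dec Y m ≤ 2 ^ Lm m - 1 := Nat.findGreatest_le _
  exact dY_unique Y (by omega) hx h1 h

lemma rc_dec (Y : ℕ → Bool) : RC (dec Y) (fun n => if Y n then 1 else 0) := by
  let d : ℕ → List ℕ → ℕ → ℕ := fun m l x => ((List.range (Nm m)).filter
    (fun j => decide ((code m).testBit (x * Nm m + j) ≠ (l.getD (Nm m + j) 0).testBit 0))).length
  have hd : Primrec (fun p : (ℕ × List ℕ) × ℕ => d p.1.1 p.1.2 p.2) := by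
    apply pr_length
    exact pr_filter (R := fun (p : (ℕ × List ℕ) × ℕ) j => (code p.1.1).testBit (p.2 * Nm p.1.1 + j) ≠
      (p.1.2.getD (Nm p.1.1 + j) 0).testBit 0) (by fun_prop) (pp_ne (by fun_prop) (by fun_prop))
  have hΦ : Primrec (fun p : ℕ × List ℕ =>
      Nat.findGreatest (fun x => 2 * d p.1 p.2 x ≤ Lm p.1) (2 ^ Lm p.1 - 1)) :=
    Primrec.nat_findGreatest (p := fun (p : ℕ × List ℕ) x => 2 * d p.1 p.2 x ≤ Lm p.1)
      (by fun_prop) (pp_le (f := fun q : (ℕ × List ℕ) × ℕ => 2 * d q.1.1 q.1.2 q.2)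
        (g := fun q => Lm q.1.1) (pr_mul (pr_const 2) hd) (by fun_prop))
  refine rc_of_tt (Φ := fun m l => Nat.findGreatest (fun x => 2 * d m l x ≤ Lm m) (2 ^ Lm m - 1))
    (u := fun m => 2 * Nm m) hΦ.to_comp (by fun_prop : Primrec fun m => 2 * Nm m).to_comp
    fun m => ?_
  unfold dec
  congr 1
  funext x
  have : d m ((List.range (2 * Nm m)).map fun n => if Y n then 1 else 0) x = dY Y m x := by
    simp only [d]
    rw [length_filter_range (fun j => (code m).testBit (x * Nm m + j) ≠
      Nat.testBit (((List.range (2 * Nm m)).map fun n => if Y n then 1 else 0).getD (Nm m + j) 0) 0)]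
    unfold dY
    congr 1
    refine Finset.filter_congr fun j hj => ?_
    rw [Finset.mem_range] at hj
    rw [getD_prefix _ (by omega)]
    cases Y (Nm m + j) <;> simp
  rw [this]

end Pool.Agent.H133Z.Gam
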