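import Pool.Agent.H133Z.GamCode

set_option autoImplicit false

namespace Pool.Agent.H133Z.Gam

open Finset Filter

attribute [local irreducible] code lg

/-- proportion of agreement below `n` -/
noncomputable def agr (Y C : ℕ → Bool) (n : ℕ) : ℝ :=
  (((Finset.range n).filter (fun k => Y k = C k)).card : ℝ) / (n : ℝ)

lemma agr_nonneg (Y C : ℕ → Bool) (n : ℕ) : 0 ≤ agr Y C n := by unfold agr; positivity

lemma agr_le_one (Y C : ℕ → Bool) (n : ℕ) : agr Y C n ≤ 1 := by
  unfold agr
  apply div_le_one_of_le₀ _ (by positivity)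
  have := Finset.card_filter_le (range n) (fun k => Y k = C k)
  rw [Finset.card_range] at this
  exact_mod_cast this

/-- `g` is infinitely often equal to each computable function below `b` -/
def IOE (b g : ℕ → ℕ) : Prop :=
  ∀ h : ℕ → ℕ, Computable h → (∀ m, h m < b m) → ∀ m0, ∃ m, m0 ≤ m ∧ g m = h m

theorem ioe_dec (Y : ℕ → Bool)
    (hY : ∀ C : ℕ → Bool, Computable C → liminf (agr Y C) atTop ≤ 1 / 1024) :
    IOE (fun m => 2 ^ Lm m) (dec Y) := by
  intro h hh hb m0
  let D : ℕ → Bool := fun n => !(code ((lg n - 5) / 3)).testBit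
    (h ((lg n - 5) / 3) * Nm ((lg n - 5) / 3) + (n - Nm ((lg n - 5) / 3)))
  have hD : Computable D := by
    have h1 : Primrec (fun p : ℕ × ℕ => !(code ((lg p.1 - 5) / 3)).testBit
        (p.2 * Nm ((lg p.1 - 5) / 3) + (p.1 - Nm ((lg p.1 - 5) / 3)))) :=
      Primrec.not.comp (by fun_prop)
    have h2 : Primrec (fun n => (lg n - 5) / 3) := by fun_prop
    have h3 := h1.to_comp.comp (Computable.id.pair (hh.comp h2.to_comp))
    exact h3.of_eq fun n => by simp only [D, id]
  have hfr : ∃ᶠ n in atTop, agr Y D n < 1 / 512 :=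
    frequently_lt_of_liminf_lt (isCoboundedUnder_ge_of_le atTop (agr_le_one Y D))
      (lt_of_le_of_lt (hY D hD) (by norm_num))
  obtain ⟨n, hn, hn2⟩ := (hfr.and_eventually (eventually_ge_atTop (2 ^ (3 * m0 + 6)))).exists
  have hn0 : 0 < n := lt_of_lt_of_le (by positivity) hn2
  have hs1 : 2 ^ Nat.log 2 n ≤ n := Nat.pow_log_le_self 2 hn0.ne'
  have hs2 : n < 2 ^ (Nat.log 2 n + 1) := Nat.lt_pow_succ_log_self (by norm_num) n
  have hs3 : 3 * m0 + 6 ≤ Nat.log 2 n := Nat.le_log_of_pow_le (by norm_num) hn2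
  set m := (Nat.log 2 n - 6) / 3 with hm
  have e1 : 2 * Nm m ≤ n := by
    refine le_trans ?_ hs1
    unfold Nm
    rw [← pow_succ']
    exact Nat.pow_le_pow_right (by norm_num) (by omega)
  have e2 : n < 128 * Lm m := by
    refine lt_of_lt_of_le hs2 ?_
    unfold Lm
    rw [show (128 : ℕ) = 2 ^ 7 from rfl, ← pow_add]
    exact Nat.pow_le_pow_right (by norm_num) (by omega)
  refine ⟨m, by omega, dec_eq Y (hb m) ?_⟩
  have e3 : dY Y m (h m) ≤ ((range n).filter (fun k => Y k = D k)).card := by
    unfold dY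
    refine Finset.card_le_card_of_injOn (fun j => Nm m + j) (fun j hj => ?_)
      (fun a _ b _ hab => by simpa using hab)
    simp only [Finset.coe_filter, Set.mem_ofPred_eq, Finset.mem_range] at hj ⊢
    refine ⟨by omega, ?_⟩
    have e4 : lg (Nm m + j) = 3 * m + 5 := by
      apply lg_eq
      · unfold Nm; omega
      · have := hj.1
        unfold Nm at this ⊢
        rw [pow_succ 2 (3 * m + 5)]; omega
    have e5 : (lg (Nm m + j) - 5) / 3 = m := by omega
    simp only [D, e5, Nat.add_sub_cancel_left]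
    have := hj.2
    revert this
    cases Y (Nm m + j) <;> cases (code m).testBit (h m * Nm m + j) <;> simp
  unfold agr at hn
  rw [div_lt_div_iff₀ (by exact_mod_cast hn0) (by norm_num)] at hn
  have e6 : ((range n).filter (fun k => Y k = D k)).card * 512 < 1 * n := by exact_mod_cast hn
  omega

/-- bound for the strings of block `k` -/
def Qk (k : ℕ) : ℕ := 2 ^ 2 ^ ((k + 1) ^ 2)
/-- frequency threshold -/
def al (k : ℕ) : ℕ := Nat.sqrt k + 1

@[fun_prop] theorem pr_Qk {α : Type} [Primcodable α] {f : α → ℕ} (hf : Primrec f) :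
    Primrec (fun a => Qk (f a)) := by unfold Qk; fun_prop
@[fun_prop] theorem pr_al {α : Type} [Primcodable α] {f : α → ℕ} (hf : Primrec f) :
    Primrec (fun a => al (f a)) := by unfold al; fun_prop

/-- positions of the block `k` which carry the label `a` -/
def pos (k a : ℕ) (l : List ℕ) : List ℕ :=
  (List.range (2 * k + 1)).filter (fun j => decide (l.getD (k ^ 2 + j) 0 / Qk k = a))

@[fun_prop] theorem pr_pos {α : Type} [Primcodable α] {k a : α → ℕ} {l : α → List ℕ}
    (hk : Primrec k) (ha : Primrec a) (hl : Primrec l) : Primrec (fun x => pos (k x) (a x) (l x)) := by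
  unfold pos
  exact pr_filter (R := fun x j => (l x).getD (k x ^ 2 + j) 0 / Qk (k x) = a x) (by fun_prop)
    (pp_eq (by fun_prop) (by fun_prop))

/-- initial segment of `g` which covers block `k` -/
def pre (g : ℕ → ℕ) (k : ℕ) : List ℕ := (List.range ((k + 1) ^ 2)).map g

lemma exists_index {l : List ℕ} {x J : ℕ} (hx : x ∈ l) (hl : l.length ≤ J) :
    ∃ i < J, l.getD i 0 = x := by
  obtain ⟨i, hi, rfl⟩ := List.getElem_of_mem hx
  exact ⟨i, by omega, by simp [List.getD_eq_getElem?_getD, hi]⟩

lemma freq_length (k : ℕ) (l : List ℕ) :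
    ((List.range (Qk k)).filter (fun v => decide (al k < (pos k v l).length))).length ≤ 2 * al k := by
  rw [length_filter_range (fun v => al k < (pos k v l).length)]
  set S := (range (Qk k)).filter (fun v => al k < (pos k v l).length)
  have h1 : ∑ v ∈ S, (pos k v l).length ≤ 2 * k + 1 := by
    have e : ∀ v, (pos k v l).length =
        ((range (2 * k + 1)).filter (fun j => l.getD (k ^ 2 + j) 0 / Qk k = v)).card :=
      fun v => length_filter_range (fun j => l.getD (k ^ 2 + j) 0 / Qk k = v) _
    simp only [e]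
    rw [← Finset.card_biUnion]
    · refine le_trans (Finset.card_le_card (t := range (2 * k + 1)) ?_) (by simp)
      intro j hj
      simp only [Finset.mem_biUnion, Finset.mem_filter] at hj
      obtain ⟨v, -, h, -⟩ := hj
      exact h
    · intro a _ b _ hab
      simp only [Function.onFun]
      rw [Finset.disjoint_filter]
      intro j _ h1 h2
      exact hab (h1.symm.trans h2)
  have h2 : S.card * (al k + 1) ≤ ∑ v ∈ S, (pos k v l).length := by
    rw [← smul_eq_mul, ← Finset.sum_const]
    exact Finset.sum_le_sum fun v hv => (Finset.mem_filter.1 hv).2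
  have h3 : k < al k * al k := Nat.lt_succ_sqrt k
  by_contra hc
  have h4 : (2 * al k + 1) * (al k + 1) ≤ S.card * (al k + 1) :=
    Nat.mul_le_mul_right _ (by omega)
  nlinarith

attribute [local irreducible] pos Qk al Lm Nm

theorem trace {g : ℕ → ℕ} (hg : IOE (fun m => 2 ^ Lm m) g) :
    ∃ cand : ℕ → List ℕ → List ℕ, Computable₂ cand ∧
      ∀ h : ℕ → ℕ, Computable h → (∀ k, h k < Qk k) → ∀ k0, ∃ k, k0 ≤ k ∧
        ∃ i < 2 * al k, (cand k (pre g k)).getD i 0 = h k := by
  by_cases hc : ∀ h : ℕ → ℕ, Computable h → (∀ k, h k < Qk k) → ∀ k0, ∃ k, k0 ≤ k ∧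
      al k < (pos k (h k) (pre g k)).length
  · refine ⟨fun k l => (List.range (Qk k)).filter (fun v => decide (al k < (pos k v l).length)),
      ?_, fun h hh hb k0 => ?_⟩
    · exact (pr_filter (f := fun p : ℕ × List ℕ => Qk p.1)
        (R := fun p v => al p.1 < (pos p.1 v p.2).length) (by fun_prop)
        (pp_lt (by fun_prop) (by fun_prop))).to_comp
    · obtain ⟨k, hk, h1⟩ := hc h hh hb k0
      refine ⟨k, hk, exists_index ?_ (freq_length k _)⟩
      simp [hb k, h1]
  · push Not at hc
    obtain ⟨h0, hh0, hb0, k1, hk1⟩ := hc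
    refine ⟨fun k l => (pos k (h0 k) l).map (fun j => l.getD (k ^ 2 + j) 0 % Qk k), ?_,
      fun h hh hb k0 => ?_⟩
    · have h1 : Primrec (fun p : (ℕ × List ℕ) × ℕ =>
          (pos p.1.1 p.2 p.1.2).map (fun j => p.1.2.getD (p.1.1 ^ 2 + j) 0 % Qk p.1.1)) :=
        Primrec.list_map (by fun_prop) (by unfold Primrec₂; fun_prop)
      have h2 := h1.to_comp.comp ((Computable.id (α := ℕ × List ℕ)).pair (hh0.comp Computable.fst))
      exact h2.of_eq fun n => by simp only [id]
    · have hs : Computable Nat.sqrt := Primrec.nat_sqrt.to_comp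
      have hH : Computable (fun m => h0 (Nat.sqrt m) * Qk (Nat.sqrt m) + h (Nat.sqrt m)) := by
        have h1 : Primrec (fun p : ℕ × ℕ × ℕ => p.2.1 * Qk (Nat.sqrt p.1) + p.2.2) := by fun_prop
        have h2 := h1.to_comp.comp (Computable.id.pair ((hh0.comp hs).pair (hh.comp hs)))
        exact h2.of_eq fun n => by simp only [id]
      have hHb : ∀ m, h0 (Nat.sqrt m) * Qk (Nat.sqrt m) + h (Nat.sqrt m) < 2 ^ Lm m := by
        intro m
        set k := Nat.sqrt m
        have a1 := hb0 k
        have a2 := hb k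
        have a3 : Qk k * Qk k ≤ 2 ^ Lm m := by
          unfold Qk Lm
          rw [← pow_add, ← two_mul, ← pow_succ']
          refine Nat.pow_le_pow_right (by norm_num) (Nat.pow_le_pow_right (by norm_num) ?_)
          have : k ^ 2 ≤ m := Nat.sqrt_le' m
          have : k ≤ k ^ 2 := Nat.le_self_pow (by norm_num) k
          nlinarith
        have a4 : (h0 k + 1) * Qk k ≤ Qk k * Qk k := Nat.mul_le_mul_right _ a1
        nlinarith
      obtain ⟨m, hm, hgm⟩ := hg _ hH hHb ((max k0 k1) ^ 2)
      set k := Nat.sqrt m with hk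
      have b1 : max k0 k1 ≤ k := Nat.le_sqrt'.2 hm
      have b2 : k ^ 2 ≤ m := Nat.sqrt_le' m
      have b3 : m < (k + 1) ^ 2 := Nat.lt_succ_sqrt' m
      have hQ : 0 < Qk k := by unfold Qk; positivity
      have b4 : (pre g k).getD (k ^ 2 + (m - k ^ 2)) 0 = h0 k * Qk k + h k := by
        rw [show k ^ 2 + (m - k ^ 2) = m by omega]
        unfold pre
        rw [getD_prefix g b3, hgm]
      refine ⟨k, le_trans (le_max_left _ _) b1, exists_index ?_ ?_⟩
      · rw [List.mem_map]
        refine ⟨m - k ^ 2, ?_, ?_⟩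
        · unfold pos
          rw [List.mem_filter, List.mem_range, b4]
          refine ⟨by nlinarith [Nat.sub_add_cancel b2], ?_⟩
          rw [decide_eq_true_eq, mul_comm, Nat.mul_add_div hQ, Nat.div_eq_of_lt (hb k), add_zero]
        · rw [b4, mul_comm, Nat.mul_add_mod, Nat.mod_eq_of_lt (hb k)]
      · rw [List.length_map]
        have := hk1 k (le_trans (le_max_right _ _) b1)
        omega

/-- width of the windows of block `k` -/
def wd (k : ℕ) : ℕ := (2 * k + 1) / (2 * al k)

@[fun_prop] theorem pr_wd {α : Type} [Primcodable α] {f : α → ℕ} (hf : Primrec f) :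
    Primrec (fun a => wd (f a)) := by unfold wd; fun_prop

lemma le_wd {t k : ℕ} (h : (t + 1) ^ 2 ≤ k) : t ≤ wd k := by
  unfold wd
  have h0 : 0 < 2 * al k := by unfold al; omega
  rw [Nat.le_div_iff_mul_le h0]
  have h1 : t + 1 ≤ Nat.sqrt k := Nat.le_sqrt'.2 h
  have h2 : Nat.sqrt k ^ 2 ≤ k := Nat.sqrt_le' k
  unfold al
  nlinarith

attribute [local irreducible] wd

theorem windows {g : ℕ → ℕ} {cand : ℕ → List ℕ → List ℕ} (hc : Computable₂ cand)
    (H : ∀ h : ℕ → ℕ, Computable h → (∀ k, h k < Qk k) → ∀ k0, ∃ k, k0 ≤ k ∧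
        ∃ i < 2 * al k, (cand k (pre g k)).getD i 0 = h k) :
    ∃ Y : ℕ → Bool, RC (fun n => if Y n then 1 else 0) g ∧
      ∀ C : ℕ → Bool, Computable C → liminf (agr Y C) atTop = 0 := by
  obtain ⟨B, hBd⟩ : ∃ B : ℕ → List ℕ → Bool, ∀ n c, B n c =
    !(c.getD ((lg n - Nat.sqrt (lg n) ^ 2) / wd (Nat.sqrt (lg n))) 0).testBit n := ⟨_, fun _ _ => rfl⟩
  have hB : Primrec (fun p : ℕ × List ℕ => B p.1 p.2) := by
    simp only [hBd]
    exact Primrec.not.comp (by fun_prop)
  obtain ⟨s, hsd⟩ : ∃ s : ℕ → ℕ, ∀ n, s n = Nat.sqrt (lg n) := ⟨_, fun _ => rfl⟩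
  have h1 : Primrec s := by
    have : Primrec (fun n => Nat.sqrt (lg n)) := by fun_prop
    exact this.of_eq fun n => (hsd n).symm
  obtain ⟨Y, hYd⟩ : ∃ Y : ℕ → Bool, ∀ n, Y n = B n (cand (s n) (pre g (s n))) := ⟨_, fun _ => rfl⟩
  refine ⟨Y, ?_, fun C hC => ?_⟩
  · have h2 : Computable (fun p : ℕ × List ℕ => B p.1 (cand (s p.1) p.2)) :=
      hB.to_comp.comp (Computable.fst.pair (hc.comp (h1.to_comp.comp Computable.fst) Computable.snd))
    have h3 : Computable₂ (fun (n : ℕ) (l : List ℕ) => cond (B n (cand (s n) l)) 1 0) :=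
      Computable.cond h2 (Computable.const 1) (Computable.const 0)
    have h4 : Primrec (fun n => (s n + 1) ^ 2) := by fun_prop
    refine rc_of_tt h3 h4.to_comp fun n => ?_
    rw [hYd]
    exact (Bool.cond_eq_ite _ 1 0).symm
  · have hh : Computable (fun k => bs C (2 ^ ((k + 1) ^ 2))) :=
      (computable_bs hC).comp (by fun_prop : Primrec fun k => 2 ^ ((k + 1) ^ 2)).to_comp
    have key : ∀ t : ℕ, ∃ᶠ n in atTop, agr Y C n ≤ (1 / 2) ^ t := by
      intro t
      rw [frequently_atTop]
      intro n0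
      obtain ⟨k, hk, i, hi, he⟩ := H _ hh (fun k => by unfold Qk; exact bs_lt C _) (max n0 ((t + 2) ^ 2))
      have w1 : t + 1 ≤ wd k := le_wd (le_trans (le_max_right _ _) hk)
      have w2 : (i + 1) * wd k ≤ 2 * k + 1 :=
        le_trans (Nat.mul_le_mul_right _ hi) (by unfold wd; exact Nat.mul_div_le _ _)
      have w3 : k ≤ k ^ 2 := Nat.le_self_pow (by norm_num) k
      refine ⟨2 ^ (k ^ 2 + (i + 1) * wd k), ?_, ?_⟩
      · have : k ^ 2 + (i + 1) * wd k < 2 ^ (k ^ 2 + (i + 1) * wd k) := Nat.lt_two_pow_self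
        have := le_trans (le_max_left _ _) hk
        omega
      · have hsub : (range (2 ^ (k ^ 2 + (i + 1) * wd k))).filter (fun n => Y n = C n) ⊆
            range (2 ^ (k ^ 2 + i * wd k)) := by
          intro n hn
          rw [Finset.mem_filter, Finset.mem_range] at hn
          rw [Finset.mem_range]
          by_contra hlt
          obtain ⟨l1, l2⟩ := lg_bounds (not_lt.1 hlt) hn.1
          have e1 : Nat.sqrt (lg n) = k := by
            symm
            rw [Nat.eq_sqrt']
            constructor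
            · omega
            · nlinarith
          have e2 : (lg n - k ^ 2) / wd k = i := by
            rw [Nat.div_eq_iff (by omega)]
            constructor
            · omega
            · have : (i + 1) * wd k = i * wd k + wd k := by ring
              omega
          have e3 : n < 2 ^ ((k + 1) ^ 2) :=
            lt_of_lt_of_le hn.1 (Nat.pow_le_pow_right (by norm_num) (by nlinarith))
          have e4 := hn.2
          simp only [hYd, hBd, hsd, e1, e2, he, testBit_bs C e3] at e4
          revert e4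
          cases C n <;> simp
        have hcard := Finset.card_le_card hsub
        rw [Finset.card_range] at hcard
        unfold agr
        rw [div_le_iff₀ (by positivity)]
        have e5 : (2 : ℝ) ^ (k ^ 2 + i * wd k) ≤ (1 / 2) ^ t * 2 ^ (k ^ 2 + (i + 1) * wd k) := by
          rw [one_div, inv_pow, le_inv_mul_iff₀ (by positivity), ← pow_add]
          refine pow_le_pow_right₀ (by norm_num) ?_
          have : (i + 1) * wd k = i * wd k + wd k := by ring
          omega
        push_cast
        refine le_trans ?_ e5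
        exact_mod_cast hcard
    apply le_antisymm
    · have h1 : ∀ t : ℕ, liminf (agr Y C) atTop ≤ (1 / 2) ^ t := fun t =>
        liminf_le_of_frequently_le (key t) (isBoundedUnder_of ⟨0, agr_nonneg Y C⟩)
      exact ge_of_tendsto' (tendsto_pow_atTop_nhds_zero_of_lt_one (by norm_num) (by norm_num)) h1
    · exact le_liminf_of_le (isCoboundedUnder_ge_of_le atTop (agr_le_one Y C))
        (Eventually.of_forall (agr_nonneg Y C))

theorem main (Y : ℕ → Bool)
    (hY : ∀ C : ℕ → Bool, Computable C → liminf (agr Y C) atTop ≤ 1 / 1024) :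
    ∃ Z : ℕ → Bool, RC (fun n => if Z n then 1 else 0) (fun n => if Y n then 1 else 0) ∧
      ∀ C : ℕ → Bool, Computable C → liminf (agr Z C) atTop = 0 := by
  obtain ⟨cand, h1, h2⟩ := trace (ioe_dec Y hY)
  obtain ⟨Z, h3, h4⟩ := windows h1 h2
  exact ⟨Z, h3.trans (rc_dec Y), h4⟩

end Pool.Agent.H133Z.Gam
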