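import Mathlib

/-!
Finite dimensional subspaces of a dual space, their weak-star ultralimits, and tubes around
their annihilators.
-/

set_option autoImplicit false

open Filter Topology

namespace Pool.Agent.H133Z.Lip

section
variable {V : Type} [AddCommGroup V] [Module ℝ V]

theorem fd_gen {d : ℕ} {S : Submodule ℝ V}
    (h : ∀ g : Fin d → V, (∀ i, g i ∈ S) → ¬ LinearIndependent ℝ g) : FiniteDimensional ℝ S := by
  by_contra hcon
  have h1 : (d : Cardinal) ≤ Module.rank ℝ S := by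
    have : ¬ Module.rank ℝ S < Cardinal.aleph0 := fun h' => hcon (Module.rank_lt_aleph0_iff.1 h')
    exact (Cardinal.natCast_lt_aleph0 (n := d)).le.trans (not_lt.1 this)
  obtain ⟨g, hg⟩ := exists_linearIndependent_of_le_rank h1
  exact h (fun i => (g i).1) (fun i => (g i).2) (hg.map' S.subtype S.ker_subtype)

theorem realise_gen {E : Type} [AddCommGroup E] [Module ℝ E] (B : E →ₗ[ℝ] V →ₗ[ℝ] ℝ)
    (hB : ∀ v, (∀ x, B x v = 0) → v = 0) (G : Submodule ℝ V) [FiniteDimensional ℝ G]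
    (l : G →ₗ[ℝ] ℝ) : ∃ x : E, ∀ f : G, B x f.1 = l f := by
  let ev : E →ₗ[ℝ] Module.Dual ℝ G :=
    { toFun := fun x => B x ∘ₗ G.subtype
      map_add' := fun x y => by ext f; simp
      map_smul' := fun c x => by ext f; simp }
  have h1 : (LinearMap.range ev).dualCoannihilator = ⊥ := by
    rw [eq_bot_iff]
    intro f hf
    rw [Submodule.mem_dualCoannihilator] at hf
    rw [Submodule.mem_bot]
    exact Subtype.ext (hB _ fun x => hf (ev x) ⟨x, rfl⟩)
  have h2 : LinearMap.range ev = ⊤ := by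
    rw [← Subspace.dualCoannihilator_dualAnnihilator_eq (W := LinearMap.range ev), h1,
      Submodule.dualAnnihilator_bot]
  obtain ⟨x, hx⟩ : l ∈ LinearMap.range ev := by rw [h2]; trivial
  exact ⟨x, fun f => by rw [← hx]; rfl⟩

theorem basis_pair_gen {E : Type} [AddCommGroup E] [Module ℝ E] (B : E →ₗ[ℝ] V →ₗ[ℝ] ℝ)
    (hB : ∀ v, (∀ x, B x v = 0) → v = 0) (S : Submodule ℝ V) [FiniteDimensional ℝ S] :
    ∃ (n : ℕ) (b : Fin n → V) (y : Fin n → E), (∀ i, b i ∈ S) ∧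
      ∀ f ∈ S, f = ∑ i, B (y i) f • b i := by
  let b := Module.finBasis ℝ S
  choose y hy using fun i => realise_gen B hB S (b.coord i)
  refine ⟨_, fun i => (b i).1, y, fun i => (b i).2, fun f hf => ?_⟩
  have := congrArg Subtype.val (b.sum_repr ⟨f, hf⟩)
  rw [Submodule.coe_sum] at this
  refine this.symm.trans (Finset.sum_congr rfl fun i _ => ?_)
  rw [Submodule.coe_smul]
  congr 1
  exact (hy i ⟨f, hf⟩).symm
end

variable {E : Type} [NormedAddCommGroup E] [NormedSpace ℝ E]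

/-- `S` has dimension `< d` -/
def Dep (d : ℕ) (S : Submodule ℝ (E →L[ℝ] ℝ)) : Prop :=
  ∀ g : Fin d → (E →L[ℝ] ℝ), (∀ i, g i ∈ S) → ¬ LinearIndependent ℝ g

/-- `x` has norm at most `δ` as a functional on `S` -/
def Small (S : Submodule ℝ (E →L[ℝ] ℝ)) (δ : ℝ) (x : E) : Prop := ∀ f ∈ S, f x ≤ δ * ‖f‖

/-- the open tube of radius `δ` around the annihilator of `S` lies in `C` -/
def Tube (S : Submodule ℝ (E →L[ℝ] ℝ)) (δ : ℝ) (C : Set E) : Prop :=
  ∀ δ', 0 ≤ δ' → δ' < δ → ∀ x, Small S δ' x → x ∈ C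

/-- a weak form of weak closedness -/
def WClosed (C : Set E) : Prop :=
  ∀ x, (∀ F : Finset (E →L[ℝ] ℝ), ∃ y ∈ C, ∀ f ∈ F, f y = f x) → x ∈ C

theorem Dep.fd {d : ℕ} {S : Submodule ℝ (E →L[ℝ] ℝ)} (h : Dep d S) : FiniteDimensional ℝ S :=
  fd_gen (V := E →L[ℝ] ℝ) h

theorem dep_span (F : Finset (E →L[ℝ] ℝ)) :
    Dep (F.card + 1) (Submodule.span ℝ (F : Set (E →L[ℝ] ℝ))) := by
  intro g hg hli
  let S := Submodule.span ℝ (F : Set (E →L[ℝ] ℝ))
  have h1 : LinearIndependent ℝ (fun i => (⟨g i, hg i⟩ : S)) :=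
    LinearIndependent.of_comp S.subtype hli
  have h2 := h1.fintype_card_le_finrank
  have h3 : Module.finrank ℝ S ≤ F.card := finrank_span_finset_le_card F
  simp only [Fintype.card_fin] at h2
  omega

/-- evaluation -/
def evB : E →ₗ[ℝ] (E →L[ℝ] ℝ) →ₗ[ℝ] ℝ where
  toFun x :=
    { toFun := fun f => f x
      map_add' := fun _ _ => rfl
      map_smul' := fun _ _ => rfl }
  map_add' x y := by ext f; simp
  map_smul' c x := by ext f; simp

theorem realise (G : Submodule ℝ (E →L[ℝ] ℝ)) [FiniteDimensional ℝ G] (l : G →ₗ[ℝ] ℝ) :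
    ∃ x : E, ∀ f : G, f.1 x = l f :=
  realise_gen (V := E →L[ℝ] ℝ) evB (fun v hv => by ext x; exact hv x) G l

theorem basis_pair (S : Submodule ℝ (E →L[ℝ] ℝ)) [FiniteDimensional ℝ S] :
    ∃ (n : ℕ) (b : Fin n → (E →L[ℝ] ℝ)) (y : Fin n → E), (∀ i, b i ∈ S) ∧
      ∀ f ∈ S, f = ∑ i, f (y i) • b i :=
  basis_pair_gen (V := E →L[ℝ] ℝ) evB (fun v hv => by ext x; exact hv x) S

theorem small_of_finite (S : Submodule ℝ (E →L[ℝ] ℝ)) [FiniteDimensional ℝ S] (δ : ℝ)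
    (hδ : 0 < δ) : ∃ (F : Finset (E →L[ℝ] ℝ)) (c : ℝ), (∀ f ∈ F, f ∈ S) ∧ 0 < c ∧
      ∀ x, (∀ f ∈ F, f x ≤ c) → Small S δ x := by
  classical
  obtain ⟨n, b, y, hb, hy⟩ := basis_pair S
  have hs : 0 ≤ ∑ i, ‖y i‖ := Finset.sum_nonneg fun i _ => norm_nonneg _
  refine ⟨Finset.univ.image b ∪ Finset.univ.image (fun i => -b i), δ / (∑ i, ‖y i‖ + 1), ?_,
    by positivity, fun x hx f hf => ?_⟩
  · intro f hf
    simp only [Finset.mem_union, Finset.mem_image, Finset.mem_univ, true_and] at hf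
    rcases hf with ⟨i, rfl⟩ | ⟨i, rfl⟩
    · exact hb i
    · exact S.neg_mem (hb i)
  · set c := δ / (∑ i, ‖y i‖ + 1) with hc
    have hc0 : 0 < c := by positivity
    have h1 : ∀ i, |b i x| ≤ c := by
      intro i
      have a1 := hx (b i) (by simp)
      have a2 := hx (-b i) (by simp)
      rw [neg_apply] at a2
      rw [abs_le]; constructor <;> linarith
    have h2 : f x = ∑ i, f (y i) * b i x := by
      conv_lhs => rw [hy f hf]
      simp
    have h3 : f x ≤ ∑ i, ‖f‖ * ‖y i‖ * c := by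
      rw [h2]
      refine Finset.sum_le_sum fun i _ => (le_abs_self _).trans ?_
      rw [abs_mul]
      exact mul_le_mul (f.le_opNorm _) (h1 i) (abs_nonneg _) (by positivity)
    rw [← Finset.sum_mul, ← Finset.mul_sum] at h3
    have h4 : (∑ i, ‖y i‖) * c ≤ δ := by
      rw [hc, mul_div_assoc', div_le_iff₀ (by positivity)]
      nlinarith
    have h5 := mul_le_mul_of_nonneg_left h4 (norm_nonneg f)
    nlinarith

theorem exists_rlim {ι : Type*} (U : Ultrafilter ι) (f : ι → ℝ) (C : ℝ) (h : ∀ k, |f k| ≤ C) :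
    ∃ x, Tendsto f U (𝓝 x) := by
  have := (isCompact_Icc (a := -C) (b := C)).ultrafilter_le_nhds (U.map f) (by
    rw [le_principal_iff]
    exact mem_map.2 (Eventually.of_forall fun k => abs_le.1 (h k)))
  obtain ⟨x, -, hx⟩ := this
  exact ⟨x, hx⟩

theorem exists_wlim {ι : Type} (U : Ultrafilter ι) (g : ι → (E →L[ℝ] ℝ)) (B : ℝ)
    (hB : ∀ i, ‖g i‖ ≤ B) : ∃ f : E →L[ℝ] ℝ, ‖f‖ ≤ B ∧
      ∀ x, Tendsto (fun i => g i x) U (𝓝 (f x)) := by
  have hb : ∀ x i, |g i x| ≤ B * ‖x‖ := fun x i =>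
    ((g i).le_opNorm x).trans (mul_le_mul_of_nonneg_right (hB i) (norm_nonneg _))
  choose L hL using fun x => exists_rlim U (fun i => g i x) _ (hb x)
  obtain ⟨i0⟩ := nonempty_of_neBot (U : Filter ι)
  have hB0 : 0 ≤ B := (norm_nonneg _).trans (hB i0)
  let L1 : E →ₗ[ℝ] ℝ :=
    { toFun := L
      map_add' := fun x y => tendsto_nhds_unique (hL (x + y))
        (by simpa using (hL x).add (hL y))
      map_smul' := fun c x => tendsto_nhds_unique (hL (c • x))
        (by simpa using (hL x).const_mul c) }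
  have h1 : ∀ x, ‖L1 x‖ ≤ B * ‖x‖ := fun x => le_of_tendsto' (hL x).abs (hb x)
  exact ⟨L1.mkContinuous B h1, L1.mkContinuous_norm_le hB0 h1, hL⟩

/-- weak-star ultralimit of subspaces -/
def ulimS {ι : Type} (U : Ultrafilter ι) (S : ι → Submodule ℝ (E →L[ℝ] ℝ)) :
    Submodule ℝ (E →L[ℝ] ℝ) where
  carrier := {f | ∃ (g : ι → (E →L[ℝ] ℝ)) (B : ℝ), (∀ i, g i ∈ S i) ∧ (∀ i, ‖g i‖ ≤ B) ∧
    ∀ x, Tendsto (fun i => g i x) U (𝓝 (f x))}
  add_mem' := by
    rintro f f' ⟨g, B, h1, h2, h3⟩ ⟨g', B', h1', h2', h3'⟩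
    exact ⟨fun i => g i + g' i, B + B', fun i => (S i).add_mem (h1 i) (h1' i),
      fun i => (norm_add_le _ _).trans (add_le_add (h2 i) (h2' i)),
      fun x => (h3 x).add (h3' x)⟩
  zero_mem' := ⟨fun _ => 0, 0, fun i => (S i).zero_mem, fun _ => by simp,
    fun _ => tendsto_const_nhds⟩
  smul_mem' := by
    rintro c f ⟨g, B, h1, h2, h3⟩
    exact ⟨fun i => c • g i, ‖c‖ * B, fun i => (S i).smul_mem c (h1 i),
      fun i => by rw [norm_smul]; exact mul_le_mul_of_nonneg_left (h2 i) (norm_nonneg _),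
      fun x => (h3 x).const_mul c⟩

theorem ulimS_dep {ι : Type} (U : Ultrafilter ι) (S : ι → Submodule ℝ (E →L[ℝ] ℝ)) (d : ℕ)
    (h : ∀ i, Dep d (S i)) : Dep d (ulimS U S) := by
  intro g hg
  choose G B hG hB hlim using hg
  have h1 : ∀ i, ∃ c : Fin d → ℝ, c ∈ Metric.sphere (0 : Fin d → ℝ) 1 ∧
      ∑ a, c a • G a i = 0 := by
    intro i
    obtain ⟨c, hc, a, ha⟩ := Fintype.not_linearIndependent_iff.1 (h i (fun a => G a i)
      (fun a => hG a i))
    have hc0 : c ≠ 0 := fun h' => ha (by rw [h']; rfl)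
    refine ⟨‖c‖⁻¹ • c, ?_, ?_⟩
    · rw [mem_sphere_zero_iff_norm, norm_smul, norm_inv, norm_norm,
        inv_mul_cancel₀ (norm_ne_zero_iff.2 hc0)]
    · simp only [Pi.smul_apply, smul_eq_mul, mul_smul]
      rw [← Finset.smul_sum, hc, smul_zero]
  choose c hc hsum using h1
  obtain ⟨c0, hc0, hlimc⟩ := (isCompact_sphere (0 : Fin d → ℝ) 1).ultrafilter_le_nhds (U.map c) (by
    rw [le_principal_iff]
    exact mem_map.2 (Eventually.of_forall hc))
  have hlimc' : Tendsto c U (𝓝 c0) := hlimc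
  refine Fintype.not_linearIndependent_iff.2 ⟨c0, ?_, ?_⟩
  · ext x
    have a1 : Tendsto (fun i => ∑ a, c i a * G a i x) U (𝓝 (∑ a, c0 a * g a x)) :=
      tendsto_finsetSum _ fun a _ => (tendsto_pi_nhds.1 hlimc' a).mul (hlim a x)
    have a2 : ∀ i, ∑ a, c i a * G a i x = 0 := fun i => by
      have := congrArg (fun f : E →L[ℝ] ℝ => f x) (hsum i)
      simpa using this
    simp only [a2] at a1
    have := tendsto_nhds_unique a1 tendsto_const_nhds
    simpa using this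
  · by_contra hcon
    push Not at hcon
    have : c0 = 0 := funext hcon
    rw [this] at hc0
    simp at hc0

theorem ulimS_small {ι : Type} (U : Ultrafilter ι) (S : ι → Submodule ℝ (E →L[ℝ] ℝ))
    {δ δ' : ℝ} (h0 : 0 ≤ δ) (hδ : δ < δ') {x : E} (h : Small (ulimS U S) δ x) :
    ∀ᶠ i in U, Small (S i) δ' x := by
  classical
  by_contra hcon
  rw [← Ultrafilter.eventually_not] at hcon
  have h1 : ∀ i, ∃ g ∈ S i, ‖g‖ ≤ 1 ∧ (¬ Small (S i) δ' x → δ' ≤ g x) := by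
    intro i
    by_cases hi : Small (S i) δ' x
    · exact ⟨0, (S i).zero_mem, by simp, fun h' => absurd hi h'⟩
    · unfold Small at hi
      push Not at hi
      obtain ⟨f, hf, hfx⟩ := hi
      have hf0 : f ≠ 0 := by
        rintro rfl
        simp at hfx
      have hn : 0 < ‖f‖ := norm_pos_iff.2 hf0
      refine ⟨‖f‖⁻¹ • f, (S i).smul_mem _ hf, ?_, fun _ => ?_⟩
      · rw [norm_smul, norm_inv, norm_norm, inv_mul_cancel₀ hn.ne']
      · rw [smul_apply, smul_eq_mul, le_inv_mul_iff₀ hn]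
        linarith
  choose g hg hg1 hgx using h1
  obtain ⟨f, hf1, hf⟩ := exists_wlim U g 1 hg1
  have a1 : f x ≤ δ * ‖f‖ := h f ⟨g, 1, hg, hg1, hf⟩
  have a2 : δ' ≤ f x := ge_of_tendsto (hf x) (hcon.mono fun i hi => hgx i hi)
  have a3 := mul_le_mul_of_nonneg_left hf1 h0
  linarith

/-- All the subspaces of least dimension whose tube lies in a weakly closed set lie in one finite
dimensional space. -/
theorem tau (C : Set E) (hC : WClosed C) (δ : ℝ) (d : ℕ)
    (hd : ¬ ∃ S, Dep d S ∧ Tube S δ C) :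
    ∃ T : Finset (E →L[ℝ] ℝ), ∀ S, Dep (d + 1) S → Tube S δ C →
      S ≤ Submodule.span ℝ (T : Set (E →L[ℝ] ℝ)) := by
  classical
  by_contra hcon
  push Not at hcon
  choose S hS hT hle using hcon
  let sp : Finset (E →L[ℝ] ℝ) → Submodule ℝ (E →L[ℝ] ℝ) :=
    fun F => Submodule.span ℝ (F : Set (E →L[ℝ] ℝ))
  let U : Ultrafilter (Finset (E →L[ℝ] ℝ)) := Ultrafilter.of atTop
  have hU : (U : Filter (Finset (E →L[ℝ] ℝ))) ≤ atTop := Ultrafilter.of_le _
  refine hd ⟨ulimS U (fun F => S F ⊓ sp F), ulimS_dep U _ d fun F g hg hli => ?_, ?_⟩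
  · obtain ⟨s, hs, hs'⟩ := SetLike.not_le_iff_exists.1 (hle F)
    refine hS F (Fin.cons s g) (fun i => ?_) (hli.finCons fun h' => hs' ?_)
    · refine Fin.cases hs (fun i => (hg i).1) i
    · refine Submodule.span_le.2 ?_ h'
      rintro _ ⟨i, rfl⟩
      exact (hg i).2
  · intro δ' h0 hδ x hx
    refine hC x fun F0 => ?_
    have e1 := ulimS_small U _ h0 (show δ' < (δ' + δ) / 2 by linarith) hx
    have e2 : ∀ᶠ F in (U : Filter _), F0 ≤ F := (eventually_ge_atTop F0).filter_mono hU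
    obtain ⟨F, hF1, hF2⟩ := (e1.and e2).exists
    let ex : (E →L[ℝ] ℝ) →ₗ[ℝ] ℝ :=
      { toFun := fun f => f x
        map_add' := fun _ _ => rfl
        map_smul' := fun _ _ => rfl }
    obtain ⟨l, hl1, hl2⟩ := exists_extension_of_le_sublinear
      (⟨S F ⊓ sp F, ex ∘ₗ (S F ⊓ sp F).subtype⟩ : (E →L[ℝ] ℝ) →ₗ.[ℝ] ℝ)
      (fun f => (δ' + δ) / 2 * ‖f‖)
      (fun c hc f => by rw [norm_smul, Real.norm_eq_abs, abs_of_pos hc]; ring)
      (fun f f' => by
        rw [← mul_add]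
        exact mul_le_mul_of_nonneg_left (norm_add_le _ _) (by linarith))
      (fun f => hF1 f.1 f.2)
    let p1 : (E →L[ℝ] ℝ) →ₗ.[ℝ] ℝ := ⟨S F, l ∘ₗ (S F).subtype⟩
    let p2 : (E →L[ℝ] ℝ) →ₗ.[ℝ] ℝ := ⟨sp F, ex ∘ₗ (sp F).subtype⟩
    have hp : ∀ (a : p1.domain) (b : p2.domain), (a : E →L[ℝ] ℝ) = b → p1 a = p2 b := by
      intro a b hab
      have := hl1 ⟨a.1, a.2, by rw [hab]; exact b.2⟩
      change l a.1 = ex b.1
      rw [← hab]
      exact this
    have : FiniteDimensional ℝ (S F) := (hS F).fd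
    have : FiniteDimensional ℝ (sp F) := (dep_span F).fd
    have : FiniteDimensional ℝ (p1.sup p2 hp).domain :=
      Submodule.finiteDimensional_sup (S F) (sp F)
    obtain ⟨y, hy⟩ := realise (p1.sup p2 hp).domain (p1.sup p2 hp).toFun
    refine ⟨y, hT F ((δ' + δ) / 2) (by linarith) (by linarith) y fun f hf => ?_, fun f hf => ?_⟩
    · have a1 := (p1.left_le_sup p2 hp).2 (x := ⟨f, hf⟩)
        (y := ⟨f, (p1.left_le_sup p2 hp).1 hf⟩) rfl
      have a2 := hy ⟨f, (p1.left_le_sup p2 hp).1 hf⟩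
      have a3 : f y = l f := a2.trans a1.symm
      rw [a3]
      exact hl2 f
    · have hf' : f ∈ sp F := Submodule.subset_span (hF2 hf)
      have a1 := (p1.right_le_sup p2 hp).2 (x := ⟨f, hf'⟩)
        (y := ⟨f, (p1.right_le_sup p2 hp).1 hf'⟩) rfl
      have a2 := hy ⟨f, (p1.right_le_sup p2 hp).1 hf'⟩
      exact a2.trans a1.symm

theorem tube_lim {K : Type} [TopologicalSpace K] (Ψ : K → E → ℝ)
    (hK : ∀ x, Continuous fun ψ => Ψ ψ x) {ι : Type} (U : Ultrafilter ι) (ψ : ι → K) (ψ0 : K)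
    (hψ : Tendsto ψ U (𝓝 ψ0)) (S : ι → Submodule ℝ (E →L[ℝ] ℝ)) (δ : ℝ)
    (h : ∀ i, Tube (S i) δ {x | Ψ (ψ i) x ≤ 1}) : Tube (ulimS U S) δ {x | Ψ ψ0 x ≤ 1} := by
  intro δ' h0 hδ x hx
  have e1 := ulimS_small U _ h0 (show δ' < (δ' + δ) / 2 by linarith) hx
  refine le_of_tendsto (((hK x).tendsto ψ0).comp hψ) (e1.mono fun i hi => ?_)
  exact h i _ (by linarith) (by linarith) x hi

end Pool.Agent.H133Z.Lip
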