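import Mathlib
import Pool.Agent.H133Z.LipA

/-!
A joint continuity theorem: on a Grothendieck space `E`, a function on `K × E` (`K` complete
metric) that is separately continuous for the weak topology is jointly continuous on bounded sets
near `0`, over some open set of `K`.
-/

set_option autoImplicit false

open Filter Topology

namespace Pool.Agent.H133Z.Lip

variable {E : Type} [NormedAddCommGroup E] [NormedSpace ℝ E]

/-- the finite form of the Grothendieck property -/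
def Groth (E : Type) [NormedAddCommGroup E] [NormedSpace ℝ E] : Prop :=
  ∀ (η : ℕ → E →L[ℝ] ℝ) (M : ℝ), (∀ j, ‖η j‖ ≤ M) →
    (∀ x, Tendsto (fun j => η j x) atTop (𝓝 0)) → ∀ c R : ℝ, 0 < c →
    (∀ n, ∃ y : E, ‖y‖ ≤ R ∧ ∀ j ≤ n, c ≤ η j y) → False

theorem fg_of_dep {d : ℕ} {S : Submodule ℝ (E →L[ℝ] ℝ)} (h : Dep d S) :
    ∃ F : Finset (E →L[ℝ] ℝ), Submodule.span ℝ (F : Set (E →L[ℝ] ℝ)) = S :=
  (Submodule.fg_iff_finiteDimensional (K := ℝ) (V := E →L[ℝ] ℝ) S).2 h.fd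

theorem joint {K : Type} [MetricSpace K] [CompleteSpace K] [Nonempty K] (hG : Groth E)
    (Ψ : K → E → ℝ) (hK : ∀ x, Continuous fun ψ => Ψ ψ x)
    (hcl : ∀ ψ, WClosed {x | Ψ ψ x ≤ 1})
    (hnb : ∀ ψ, ∃ (F : Finset (E →L[ℝ] ℝ)) (ε : ℝ), 0 < ε ∧
      ∀ x, (∀ f ∈ F, |f x| < ε) → Ψ ψ x ≤ 1)
    (R : ℝ)
    (hbad : ∀ O : Set K, IsOpen O → O.Nonempty → ∀ (F : Finset (E →L[ℝ] ℝ)) (ε : ℝ), 0 < ε →
      ∃ ψ ∈ O, ∃ x : E, ‖x‖ ≤ R ∧ (∀ f ∈ F, |f x| < ε) ∧ 1 < Ψ ψ x) : False := by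
  classical
  let C : K → Set E := fun ψ => {x | Ψ ψ x ≤ 1}
  let A : ℕ → ℕ → Set K := fun d m =>
    {ψ | ∃ S, Dep d S ∧ Tube S (1 / ((m : ℝ) + 1)) (C ψ)}
  have hAc : ∀ d m, IsClosed (A d m) := by
    intro d m
    refine IsSeqClosed.isClosed fun ψ ψ0 hψ hlim => ?_
    choose S hS hT using hψ
    exact ⟨ulimS (hyperfilter ℕ) S, ulimS_dep _ _ _ hS,
      tube_lim Ψ hK _ ψ ψ0 (hlim.mono_left Nat.hyperfilter_le_atTop) S _ hT⟩
  have hAu : (⋃ p : ℕ × ℕ, A p.1 p.2) = Set.univ := by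
    refine Set.eq_univ_of_forall fun ψ => ?_
    obtain ⟨F, ε, hε, hF⟩ := hnb ψ
    have hs : 0 ≤ ∑ f ∈ F, ‖f‖ := Finset.sum_nonneg fun f _ => norm_nonneg f
    obtain ⟨m, hm⟩ := exists_nat_one_div_lt (show 0 < ε / (∑ f ∈ F, ‖f‖ + 1) by positivity)
    refine Set.mem_iUnion.2 ⟨(F.card + 1, m), _, dep_span F, fun δ' h0 hδ x hx => hF x ?_⟩
    intro f hf
    have hfS : f ∈ Submodule.span ℝ (F : Set (E →L[ℝ] ℝ)) := Submodule.subset_span hf
    have a1 := hx f hfS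
    have a2 := hx (-f) (Submodule.neg_mem _ hfS)
    rw [neg_apply, norm_neg] at a2
    have a3 : ‖f‖ ≤ ∑ f ∈ F, ‖f‖ :=
      Finset.single_le_sum (f := fun f : E →L[ℝ] ℝ => ‖f‖) (fun f _ => norm_nonneg f) hf
    have a4 : δ' < ε / (∑ f ∈ F, ‖f‖ + 1) := hδ.trans hm
    rw [lt_div_iff₀ (by positivity)] at a4
    have a5 := mul_le_mul_of_nonneg_left a3 h0
    rw [abs_lt]; constructor <;> nlinarith
  obtain ⟨⟨d0, m⟩, hdm⟩ := nonempty_interior_of_iUnion_of_closed (fun p : ℕ × ℕ => hAc p.1 p.2) hAu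
  have hex : ∃ d, (interior (A d m)).Nonempty := ⟨d0, hdm⟩
  obtain ⟨d, hd1, hd2⟩ : ∃ d, (interior (A (d + 1) m)).Nonempty ∧
      ¬ (interior (A d m)).Nonempty := by
    have h1 := Nat.find_spec hex
    have h2 : Nat.find hex ≠ 0 := by
      intro h0
      rw [h0] at h1
      obtain ⟨ψ, hψ⟩ := h1
      obtain ⟨S, hS, -⟩ := interior_subset hψ
      exact hS (fun i => i.elim0) (fun i => i.elim0) linearIndependent_empty_type
    obtain ⟨d, hd⟩ := Nat.exists_eq_succ_of_ne_zero h2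
    exact ⟨d, by rw [← Nat.succ_eq_add_one, ← hd]; exact h1,
      Nat.find_min hex (by rw [hd]; exact Nat.lt_succ_self d)⟩
  set δ : ℝ := 1 / ((m : ℝ) + 1) with hδdef
  have hδ : 0 < δ := by positivity
  let O : Set K := interior (A (d + 1) m) \ A d m
  have hO : IsOpen O := isOpen_interior.sdiff (hAc d m)
  have hOn : O.Nonempty := by
    by_contra hcon
    rw [Set.not_nonempty_iff_eq_empty, Set.sdiff_eq_empty] at hcon
    exact hd2 (hd1.mono (interior_maximal hcon isOpen_interior))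
  have hSF : ∀ ψ, ∃ F : Finset (E →L[ℝ] ℝ), ψ ∈ O →
      Dep (d + 1) (Submodule.span ℝ (F : Set (E →L[ℝ] ℝ))) ∧
      Tube (Submodule.span ℝ (F : Set (E →L[ℝ] ℝ))) δ (C ψ) := by
    intro ψ
    by_cases h : ψ ∈ O
    · obtain ⟨S, hS, hT⟩ := interior_subset h.1
      obtain ⟨F, rfl⟩ := fg_of_dep hS
      exact ⟨F, fun _ => ⟨hS, hT⟩⟩
    · exact ⟨∅, fun h' => absurd h' h⟩
  choose F hF using hSF
  have step : ∀ (k : ℕ) (p : K × ℝ × Finset (E →L[ℝ] ℝ)), 0 < p.2.1 →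
      ∃ (q : K × ℝ × Finset (E →L[ℝ] ℝ)) (x : E), 0 < q.2.1 ∧ q.2.1 ≤ p.2.1 / 2 ∧
        Metric.closedBall q.1 q.2.1 ⊆ Metric.closedBall p.1 p.2.1 ∧
        q.2.2 = p.2.2 ∪ F p.1 ∧ ‖x‖ ≤ R ∧ (∀ f ∈ q.2.2, |f x| < 1 / ((k : ℝ) + 1)) ∧
        ∀ ψ ∈ Metric.closedBall q.1 q.2.1, 1 < Ψ ψ x := by
    intro k p hp
    obtain ⟨ψ, hψ, x, hx1, hx2, hx3⟩ := hbad (Metric.ball p.1 p.2.1) Metric.isOpen_ball
      (Metric.nonempty_ball.2 hp) (p.2.2 ∪ F p.1) (1 / ((k : ℝ) + 1)) (by positivity)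
    have hop : IsOpen (Metric.ball p.1 p.2.1 ∩ {ψ | 1 < Ψ ψ x}) :=
      Metric.isOpen_ball.inter (isOpen_lt continuous_const (hK x))
    obtain ⟨ρ, hρ, hsub⟩ := Metric.nhds_basis_closedBall.mem_iff.1 (hop.mem_nhds ⟨hψ, hx3⟩)
    have hsub' : Metric.closedBall ψ (min ρ (p.2.1 / 2)) ⊆ _ :=
      (Metric.closedBall_subset_closedBall (min_le_left _ _)).trans hsub
    exact ⟨(ψ, min ρ (p.2.1 / 2), p.2.2 ∪ F p.1), x, lt_min hρ (by linarith), min_le_right _ _,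
      fun a ha => Metric.ball_subset_closedBall (hsub' ha).1, rfl, hx1, hx2,
      fun a ha => (hsub' ha).2⟩
  choose! nx xx h1 h2 h3 h4 h5 h6 h7 using step
  obtain ⟨ψ0, hψ0⟩ := hOn
  obtain ⟨ρ0, hρ0, hsub0⟩ := Metric.nhds_basis_closedBall.mem_iff.1 (hO.mem_nhds hψ0)
  obtain ⟨p, hp0, hp⟩ : ∃ p : ℕ → K × ℝ × Finset (E →L[ℝ] ℝ), p 0 = (ψ0, ρ0, ∅) ∧
      ∀ k, p (k + 1) = nx k (p k) :=
    ⟨fun k => Nat.rec (ψ0, ρ0, ∅) (fun k q => nx k q) k, rfl, fun _ => rfl⟩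
  have hpos : ∀ k, 0 < (p k).2.1 := by
    intro k
    induction k with
    | zero => rw [hp0]; exact hρ0
    | succ k ih => rw [hp]; exact h1 k _ ih
  have hrad : ∀ k, (p k).2.1 ≤ ρ0 / 2 ^ k := by
    intro k
    induction k with
    | zero => rw [hp0]; simp
    | succ k ih =>
      rw [hp, pow_succ, ← div_div]
      exact (h2 k _ (hpos k)).trans (by linarith)
  have hanti : Antitone fun k => Metric.closedBall (p k).1 (p k).2.1 :=
    antitone_nat_of_succ_le fun k => by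
      rw [hp]; exact h3 k _ (hpos k)
  have hmem : ∀ k l, k ≤ l → (p l).1 ∈ Metric.closedBall (p k).1 (p k).2.1 := fun k l hkl =>
    hanti hkl (Metric.mem_closedBall_self (hpos l).le)
  have hcau : CauchySeq fun k => (p k).1 := by
    refine cauchySeq_of_le_geometric_two (C := 2 * ρ0) fun k => ?_
    rw [dist_comm]
    refine (Metric.mem_closedBall.1 (hmem k (k + 1) (Nat.le_succ k))).trans ((hrad k).trans ?_)
    apply le_of_eq
    ring
  obtain ⟨ψi, hψi⟩ := cauchySeq_tendsto_of_complete hcau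
  have hψimem : ∀ k, ψi ∈ Metric.closedBall (p k).1 (p k).2.1 := fun k =>
    Metric.isClosed_closedBall.mem_of_tendsto hψi
      ((eventually_ge_atTop k).mono fun l hl => hmem k l hl)
  have hO0 : Metric.closedBall (p 0).1 (p 0).2.1 ⊆ O := by rw [hp0]; exact hsub0
  have hψiO : ψi ∈ O := hO0 (hψimem 0)
  have hpO : ∀ k, (p k).1 ∈ O := fun k => hO0 (hmem 0 k (Nat.zero_le k))
  let x : ℕ → E := fun k => xx k (p k)
  have hxR : ∀ k, ‖x k‖ ≤ R := fun k => h5 k _ (hpos k)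
  have hxC : ∀ k, 1 < Ψ ψi (x k) := fun k => h7 k _ (hpos k) ψi (by
    rw [← hp]; exact hψimem (k + 1))
  have hmonoF : Monotone fun k => (p k).2.2 := monotone_nat_of_le_succ fun k => by
    rw [hp, h4 k _ (hpos k)]
    exact Finset.subset_union_left
  let S : ℕ → Submodule ℝ (E →L[ℝ] ℝ) := fun j =>
    Submodule.span ℝ (F (p j).1 : Set (E →L[ℝ] ℝ))
  have hS0 : ∀ j, ∀ f ∈ S j, Tendsto (fun k => f (x k)) atTop (𝓝 0) := by
    intro j f hf
    induction hf using Submodule.span_induction with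
    | mem f hf =>
      refine squeeze_zero_norm' ?_ tendsto_one_div_add_atTop_nhds_zero_nat
      filter_upwards [eventually_ge_atTop j] with k hk
      refine (h6 k _ (hpos k) f ?_).le
      rw [← hp]
      refine hmonoF (Nat.succ_le_succ hk) ?_
      change f ∈ (p (j + 1)).2.2
      rw [hp, h4 j _ (hpos j)]
      exact Finset.mem_union_right _ hf
    | zero => exact tendsto_const_nhds
    | add f g _ _ hf hg => simpa using hf.add hg
    | smul c f _ hf => simpa using hf.const_mul c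
  obtain ⟨T, hT⟩ := tau (C ψi) (hcl ψi) δ d hψiO.2
  have hlimT : ∀ (V : Ultrafilter ℕ) (j : ℕ → ℕ), Tendsto j V atTop →
      Dep (d + 1) (ulimS V fun n => S (j n)) ∧ Tube (ulimS V fun n => S (j n)) δ (C ψi) :=
    fun V j hj => ⟨ulimS_dep _ _ _ fun n => (hF _ (hpO _)).1,
      tube_lim Ψ hK V (fun n => (p (j n)).1) ψi (hψi.comp hj) _ _ fun n => (hF _ (hpO _)).2⟩
  have hU : ((hyperfilter ℕ : Ultrafilter ℕ) : Filter ℕ) ≤ atTop := Nat.hyperfilter_le_atTop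
  obtain ⟨hR1, hR2⟩ := hlimT (hyperfilter ℕ) id (tendsto_id.mono_left hU)
  have hfd := hR1.fd
  obtain ⟨F0, c, hF0, hc, hsm⟩ := small_of_finite (ulimS (hyperfilter ℕ) fun n => S (id n))
    (δ / 2) (by positivity)
  obtain ⟨g, hgF, hgfr⟩ : ∃ g ∈ F0, ∃ᶠ k in atTop, c < g (x k) := by
    by_contra hcon
    push Not at hcon
    obtain ⟨k, hk⟩ := ((Finset.eventually_all F0).2 hcon).exists
    have := hR2 (δ / 2) (by positivity) (by linarith) _ (hsm _ hk)
    exact absurd (hxC k) (not_lt.2 this)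
  have hgT := hT _ hR1 hR2 (hF0 g hgF)
  obtain ⟨f, B, hfS, hfB, hfg⟩ := hF0 g hgF
  have hfdT := (dep_span T).fd
  obtain ⟨n, b, y, -, hby⟩ := basis_pair (Submodule.span ℝ (T : Set (E →L[ℝ] ℝ)))
  have hj : ∀ l : ℕ, ∃ j, l ≤ j ∧ ∀ i, |f j (y i) - g (y i)| < 1 / ((l : ℝ) + 1) := by
    intro l
    have e1 : ∀ᶠ j in (hyperfilter ℕ : Filter ℕ), l ≤ j := (eventually_ge_atTop l).filter_mono hU
    have e2 : ∀ᶠ j in (hyperfilter ℕ : Filter ℕ),
        ∀ i, |f j (y i) - g (y i)| < 1 / ((l : ℝ) + 1) :=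
      eventually_all.2 fun i => (Metric.tendsto_nhds.1 (hfg (y i))) _ (by positivity)
    exact (e1.and e2).exists
  choose j hj1 hj2 using hj
  have hjt : Tendsto j atTop atTop := tendsto_atTop_mono hj1 tendsto_id
  have hconv : ∀ z, Tendsto (fun l => f (j l) z) atTop (𝓝 (g z)) := by
    intro z
    refine (tendsto_iff_ultrafilter _ _ _).2 fun V hV => ?_
    obtain ⟨g', -, hg'⟩ := exists_wlim V (fun l => f (j l)) B (fun l => hfB _)
    obtain ⟨a1, a2⟩ := hlimT V j (hjt.mono_left hV)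
    have hg'T := hT _ a1 a2 ⟨fun l => f (j l), B, fun l => hfS _, fun l => hfB _, hg'⟩
    have a3 : ∀ i, g' (y i) = g (y i) := by
      intro i
      refine tendsto_nhds_unique (hg' (y i)) (Tendsto.mono_left ?_ hV)
      rw [tendsto_iff_norm_sub_tendsto_zero]
      exact squeeze_zero (fun _ => norm_nonneg _) (fun l => (hj2 l i).le)
        tendsto_one_div_add_atTop_nhds_zero_nat
    have a4 : g' = g := by
      refine (hby g' hg'T).trans (Eq.trans ?_ (hby g hgT).symm)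
      exact Finset.sum_congr rfl fun i _ => by rw [a3]
    rw [← a4]
    exact hg' z
  refine hG (fun l => g - f (j l)) (‖g‖ + B)
    (fun l => (norm_sub_le _ _).trans (by linarith [hfB (j l)])) (fun z => ?_) (c / 2) R
    (by positivity) fun n0 => ?_
  · have := (hconv z).const_sub (g z)
    rw [sub_self] at this
    exact this
  · have e1 : ∀ᶠ k in atTop, ∀ l ∈ Finset.range (n0 + 1), f (j l) (x k) < c / 2 :=
      (Finset.eventually_all _).2 fun l _ =>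
        (hS0 _ _ (hfS (j l))).eventually (gt_mem_nhds (by positivity))
    obtain ⟨k, hk1, hk2⟩ := (hgfr.and_eventually e1).exists
    refine ⟨x k, hxR k, fun l hl => ?_⟩
    have := hk2 l (Finset.mem_range.2 (Nat.lt_succ_of_le hl))
    rw [sub_apply]
    linarith

end Pool.Agent.H133Z.Lip
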