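import Mathlib
import Pool.Agent.Helper5.Ci.Phillips

/-!
The Grothendieck property of `ℓ∞`, in a finite form.
-/

set_option autoImplicit false

open Filter Topology BoundedContinuousFunction

namespace Pool.Agent.H133Z.Lip

/-- bounded real sequences -/
abbrev LI : Type := ℕ →ᵇ ℝ

/-- a bounded sequence from a function and a bound -/
noncomputable def mk (f : ℕ → ℝ) (C : ℝ) (h : ∀ n, |f n| ≤ C) : LI :=
  BoundedContinuousFunction.ofNormedAddCommGroupDiscrete f C h

@[simp] theorem mk_apply (f : ℕ → ℝ) (C : ℝ) (h : ∀ n, |f n| ≤ C) (n : ℕ) : mk f C h n = f n := rfl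

theorem abs_le_norm (x : LI) (n : ℕ) : |x n| ≤ ‖x‖ := x.norm_coe_le_norm n

theorem norm_le' (x : LI) (C : ℝ) (h : ∀ n, |x n| ≤ C) : ‖x‖ ≤ C :=
  (BoundedContinuousFunction.norm_le ((abs_nonneg _).trans (h 0))).2 h

/-- positivity of a linear functional -/
def Pos (m : LI →ₗ[ℝ] ℝ) : Prop := ∀ g : LI, (∀ y, 0 ≤ g y) → 0 ≤ m g

theorem Pos.mono {m : LI →ₗ[ℝ] ℝ} (hm : Pos m) {f g : LI} (h : ∀ y, f y ≤ g y) :
    m f ≤ m g := by
  have := hm (g - f) fun y => by simpa using h y
  rw [map_sub] at this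
  linarith

/-- norm of the positive part -/
noncomputable def pp (g : LI) : ℝ :=
  ‖mk (fun n => max (g n) 0) ‖g‖ (fun n => by
    have := abs_le_norm g n
    rw [abs_of_nonneg (le_max_right _ _)]
    exact max_le ((le_abs_self _).trans this) (norm_nonneg _))‖

theorem pp_nonneg (g : LI) : 0 ≤ pp g := norm_nonneg _

theorem le_pp (g : LI) (y : ℕ) : g y ≤ pp g := by
  refine le_trans ?_ (abs_le_norm _ y)
  refine le_trans ?_ (le_abs_self _)
  simp

theorem pp_le (g : LI) (r : ℝ) (hr : 0 ≤ r) (h : ∀ y, g y ≤ r) : pp g ≤ r := by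
  refine norm_le' _ _ fun y => ?_
  rw [mk_apply, abs_of_nonneg (le_max_right _ _)]
  exact max_le (h y) hr

theorem pp_add (f g : LI) : pp (f + g) ≤ pp f + pp g :=
  pp_le _ _ (add_nonneg (pp_nonneg _) (pp_nonneg _)) fun y => add_le_add (le_pp f y) (le_pp g y)

theorem pp_smul (c : ℝ) (hc : 0 < c) (g : LI) : pp (c • g) = c * pp g := by
  apply le_antisymm
  · exact pp_le _ _ (mul_nonneg hc.le (pp_nonneg _)) fun y =>
      mul_le_mul_of_nonneg_left (le_pp g y) hc.le
  · rw [← le_div_iff₀' hc]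
    refine pp_le _ _ (div_nonneg (pp_nonneg _) hc.le) fun y => ?_
    rw [le_div_iff₀' hc]
    exact le_pp (c • g) y

/-- every bounded functional is dominated by a positive one -/
theorem exists_dom (ρ : LI →L[ℝ] ℝ) :
    ∃ m : LI →ₗ[ℝ] ℝ, Pos m ∧ m 1 ≤ ‖ρ‖ ∧
      ∀ f g : LI, (∀ y, |f y| ≤ g y) → ρ f ≤ m g := by
  let D : Submodule ℝ (LI × LI) :=
    { carrier := {p | p.2 = -p.1}
      add_mem' := fun {a b} ha hb => by
        simp only [Set.mem_ofPred_eq, Prod.snd_add, Prod.fst_add] at *
        rw [ha, hb]; abel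
      zero_mem' := by simp
      smul_mem' := fun c a ha => by
        simp only [Set.mem_ofPred_eq, Prod.smul_snd, Prod.smul_fst] at *
        rw [ha, smul_neg] }
  let f0 : (LI × LI) →ₗ.[ℝ] ℝ :=
    ⟨D, (ρ : LI →ₗ[ℝ] ℝ) ∘ₗ (LinearMap.fst ℝ _ _) ∘ₗ D.subtype⟩
  obtain ⟨Λ, hΛ1, hΛ2⟩ := exists_extension_of_le_sublinear f0
    (fun p => ‖ρ‖ * max (pp p.1) (pp p.2))
    (fun c hc p => by
      simp only [Prod.smul_fst, Prod.smul_snd, pp_smul c hc]
      rw [← mul_max_of_nonneg _ _ hc.le]; ring)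
    (fun p q => by
      rw [← mul_add]
      refine mul_le_mul_of_nonneg_left (max_le ?_ ?_) ρ.opNorm_nonneg
      · exact (pp_add _ _).trans (add_le_add (le_max_left _ _) (le_max_left _ _))
      · exact (pp_add _ _).trans (add_le_add (le_max_right _ _) (le_max_right _ _)))
    (fun p => by
      have hp : p.1.2 = -p.1.1 := p.2
      change ρ p.1.1 ≤ _
      refine (le_abs_self _).trans ((ρ.le_opNorm _).trans
        (mul_le_mul_of_nonneg_left ?_ (norm_nonneg _)))
      refine norm_le' _ _ fun y => ?_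
      rw [abs_le]
      constructor
      · have := (le_pp p.1.2 y).trans (le_max_right (pp p.1.1) _)
        rw [hp] at this ⊢
        simp only [BoundedContinuousFunction.neg_apply] at this
        linarith
      · exact (le_pp p.1.1 y).trans (le_max_left _ _))
  have hpos : ∀ f g : LI, (∀ y, 0 ≤ f y) → (∀ y, 0 ≤ g y) → 0 ≤ Λ (f, g) := by
    intro f g hf hg
    have h1 := hΛ2 (-(f, g))
    rw [map_neg] at h1
    have h2 : max (pp (-(f, g)).1) (pp (-(f, g)).2) ≤ 0 :=
      max_le (pp_le _ _ le_rfl fun y => by simpa using hf y)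
        (pp_le _ _ le_rfl fun y => by simpa using hg y)
    have h3 := mul_nonpos_of_nonneg_of_nonpos (norm_nonneg ρ) h2
    linarith
  refine ⟨Λ ∘ₗ (LinearMap.prod LinearMap.id LinearMap.id), fun g hg => hpos g g hg hg, ?_, ?_⟩
  · refine (hΛ2 (1, 1)).trans ?_
    have : pp (1 : LI) ≤ 1 := pp_le _ _ zero_le_one fun y => le_rfl
    simp only [max_self]
    exact mul_le_of_le_one_right ρ.opNorm_nonneg this
  · intro f g hfg
    have h1 : Λ (f, -f) = ρ f := hΛ1 ⟨(f, -f), rfl⟩
    have h2 := hpos (g - f) (g + f)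
      (fun y => by have := (abs_le.1 (hfg y)).2; simp; linarith)
      (fun y => by have := (abs_le.1 (hfg y)).1; simp; linarith)
    have h3 : ((g - f, g + f) : LI × LI) = (g, g) - (f, -f) := by simp
    rw [h3, map_sub, h1] at h2
    change ρ f ≤ Λ (g, g)
    linarith

theorem exists_ulim {ι : Type*} (U : Ultrafilter ι) (f : ι → ℝ) (C : ℝ) (h : ∀ k, |f k| ≤ C) :
    ∃ x, Tendsto f U (𝓝 x) := by
  have := (isCompact_Icc (a := -C) (b := C)).ultrafilter_le_nhds (U.map f) (by
    rw [le_principal_iff]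
    exact mem_map.2 (Eventually.of_forall fun k => abs_le.1 (h k)))
  obtain ⟨x, -, hx⟩ := this
  exact ⟨x, hx⟩

open Classical in
/-- indicator of a set -/
noncomputable def ind (S : Set ℕ) : LI :=
  mk (fun n => if n ∈ S then 1 else 0) 1 (fun n => by split_ifs <;> simp)

open Classical in
theorem ind_apply (S : Set ℕ) (n : ℕ) : ind S n = if n ∈ S then 1 else 0 := rfl

/-- disjointly supported vectors and Phillips' lemma -/
theorem disj (η : ℕ → LI →L[ℝ] ℝ) (M : ℝ) (hM : ∀ j, ‖η j‖ ≤ M)
    (h0 : ∀ x, Tendsto (fun j => η j x) atTop (𝓝 0)) (u : ℕ → LI) (R : ℝ)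
    (hu : ∀ k, ‖u k‖ ≤ R) (hd : ∀ k l n, u k n ≠ 0 → u l n ≠ 0 → k = l) :
    Tendsto (fun k => η k (u k)) atTop (𝓝 0) := by
  classical
  have hidx : ∀ n, ∃ i, ∀ k, k ≠ i → u k n = 0 := by
    intro n
    by_cases h : ∃ k, u k n ≠ 0
    · obtain ⟨k, hk⟩ := h
      exact ⟨k, fun l hl => by
        by_contra hne
        exact hl (hd l k n hne hk)⟩
    · push Not at h
      exact ⟨0, fun k _ => h k⟩
  choose idx hidx using hidx
  have hR : 0 ≤ R := (norm_nonneg _).trans (hu 0)
  have hb : ∀ (T : Set ℕ) n, |(if idx n ∈ T then u (idx n) n else 0)| ≤ R := by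
    intro T n
    split_ifs
    · exact (abs_le_norm _ _).trans (hu _)
    · simpa using hR
  let U : Set ℕ → LI := fun T => mk (fun n => if idx n ∈ T then u (idx n) n else 0) R (hb T)
  have hU : ∀ T n, U T n = if idx n ∈ T then u (idx n) n else 0 := fun _ _ => rfl
  have hUk : ∀ k, U {k} = u k := by
    intro k
    ext n
    rw [hU]
    split_ifs with h
    · rw [Set.mem_singleton_iff.1 h]
    · exact (hidx n k fun h' => h (by rw [h']; rfl)).symm
  have key := Pool.Agent.Helper5.CI.phillips (fun k T => ((η k (U T) : ℝ) : ℂ)) (M * R)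
    (fun k S T hST => by
      have : U (S ∪ T) = U S + U T := by
        ext n
        rw [BoundedContinuousFunction.add_apply, hU, hU, hU]
        by_cases h1 : idx n ∈ S
        · have h2 : idx n ∉ T := fun h2 => Set.disjoint_left.1 hST h1 h2
          simp [h1, h2]
        · by_cases h2 : idx n ∈ T <;> simp [h1, h2]
      simp only [this, map_add, Complex.ofReal_add])
    (fun k T => by
      rw [Complex.norm_real]
      refine ((η k).le_opNorm _).trans ?_
      exact mul_le_mul (hM k) (norm_le' _ _ (hb T)) (norm_nonneg _)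
        ((η k).opNorm_nonneg.trans (hM k)))
    (fun T => by
      have := (Complex.continuous_ofReal.tendsto 0).comp (h0 (U T))
      simpa [Function.comp_def] using this)
  simp only [hUk] at key
  have := (Complex.continuous_re.tendsto 0).comp key
  simpa [Function.comp_def] using this

/-- The Grothendieck property of `ℓ∞`, in a finite form. -/
theorem groth (η : ℕ → LI →L[ℝ] ℝ) (M : ℝ) (hM : ∀ j, ‖η j‖ ≤ M)
    (h0 : ∀ x, Tendsto (fun j => η j x) atTop (𝓝 0)) (c R : ℝ) (hc : 0 < c)
    (h : ∀ n, ∃ y : LI, ‖y‖ ≤ R ∧ ∀ j ≤ n, c ≤ η j y) : False := by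
  classical
  have hd := fun k => exists_dom (η k)
  choose m hm hm1 hdom using hd
  let U := hyperfilter ℕ
  have hU : (U : Filter ℕ) ≤ atTop := Nat.hyperfilter_le_atTop
  have hM0 : 0 ≤ M := (η 0).opNorm_nonneg.trans (hM 0)
  have hR0 : 0 ≤ R := by
    obtain ⟨y, hy, -⟩ := h 0
    exact (norm_nonneg _).trans hy
  have hbd : ∀ (g : LI) k, |m k g| ≤ ‖g‖ * M := by
    intro g k
    have a1 : m k g ≤ m k (‖g‖ • 1) := (hm k).mono fun y => by
      simpa using (le_abs_self _).trans (abs_le_norm g y)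
    have a2 : m k (-g) ≤ m k (‖g‖ • 1) := (hm k).mono fun y => by
      simpa using (neg_le_abs _).trans (abs_le_norm g y)
    rw [map_smul, smul_eq_mul] at a1 a2
    rw [map_neg] at a2
    have a3 : ‖g‖ * m k 1 ≤ ‖g‖ * M :=
      mul_le_mul_of_nonneg_left ((hm1 k).trans (hM k)) (norm_nonneg _)
    rw [abs_le]; constructor <;> linarith
  have hex := fun g : LI => exists_ulim U (fun k => m k g) _ (hbd g)
  choose L0 hL0 using hex
  let L : LI →ₗ[ℝ] ℝ :=
    { toFun := L0
      map_add' := fun f g => tendsto_nhds_unique (hL0 (f + g))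
        (by simpa using (hL0 f).add (hL0 g))
      map_smul' := fun c g => tendsto_nhds_unique (hL0 (c • g))
        (by simpa using (hL0 g).const_mul c) }
  have hL : ∀ g, Tendsto (fun k => m k g) U (𝓝 (L g)) := hL0
  have hLpos : Pos L := fun g hg => ge_of_tendsto' (hL g) fun k => hm k g hg
  have hLb : ∀ g, L g ≤ ‖g‖ * M := fun g =>
    le_of_tendsto' (hL g) fun k => (le_abs_self _).trans (hbd g k)
  clear_value L
  let C : ℕ → Set LI := fun n => {y | ‖y‖ ≤ R ∧ ∀ j ≤ n, c ≤ η j y}
  have hQ0 : ∀ y : LI, 0 ≤ L (y * y) := fun y => hLpos _ fun n => by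
    rw [BoundedContinuousFunction.mul_apply]; exact mul_self_nonneg _
  have hQb : ∀ y : LI, ‖y‖ ≤ R → L (y * y) ≤ R * R * M := fun y hy =>
    (hLb _).trans (mul_le_mul_of_nonneg_right ((norm_mul_le _ _).trans
      (mul_le_mul hy hy (norm_nonneg _) hR0)) hM0)
  have conv : ∀ w : ℝ, 0 < w → ∃ y : LI, ‖y‖ ≤ R ∧ ∀ k, ∃ y' ∈ C k,
      L ((y' - y) * (y' - y)) < w := by
    intro w hw
    let T : Set ℝ := {t | ∃ n, ∀ y ∈ C n, t ≤ L (y * y)}
    have hT0 : T.Nonempty := ⟨0, 0, fun y _ => hQ0 y⟩
    have hTb : BddAbove T := ⟨R * R * M, by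
      rintro t ⟨n, hn⟩
      obtain ⟨y, hy⟩ := h n
      exact (hn y hy).trans (hQb y hy.1)⟩
    obtain ⟨t, ⟨n, hn⟩, ht⟩ := exists_lt_of_lt_csSup hT0 (show sSup T - w / 8 < sSup T by linarith)
    have hup : ∀ k, ∃ y ∈ C k, L (y * y) < sSup T + w / 8 := by
      intro k
      by_contra hcon
      push Not at hcon
      have := le_csSup hTb (show sSup T + w / 8 ∈ T from ⟨k, hcon⟩)
      linarith
    obtain ⟨y, hy, hyQ⟩ := hup n
    refine ⟨y, hy.1, fun k => ?_⟩
    obtain ⟨y', hy', hyQ'⟩ := hup (max k n)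
    refine ⟨y', ⟨hy'.1, fun j hj => hy'.2 j (hj.trans (le_max_left _ _))⟩, ?_⟩
    have hmid : (1 / 2 : ℝ) • (y + y') ∈ C n := by
      refine ⟨?_, fun j hj => ?_⟩
      · rw [norm_smul]
        have := norm_add_le y y'
        have e : ‖(1 / 2 : ℝ)‖ = 1 / 2 := by norm_num
        rw [e]
        linarith [hy.1, hy'.1]
      · rw [map_smul, map_add, smul_eq_mul]
        linarith [hy.2 j hj, hy'.2 j (hj.trans (le_max_right _ _))]
    have h1 := hn _ hmid
    have e : (y' - y) * (y' - y) = (2 : ℝ) • (y * y) + (2 : ℝ) • (y' * y') -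
        (4 : ℝ) • (((1 / 2 : ℝ) • (y + y')) * ((1 / 2 : ℝ) • (y + y'))) := by
      ext n
      simp only [BoundedContinuousFunction.mul_apply, BoundedContinuousFunction.sub_apply,
        BoundedContinuousFunction.add_apply, BoundedContinuousFunction.smul_apply, smul_eq_mul]
      ring
    rw [e, map_sub, map_add, map_smul, map_smul, map_smul]
    simp only [smul_eq_mul]
    linarith
  obtain ⟨ε, hε, hεM⟩ : ∃ ε : ℝ, 0 < ε ∧ ε * M ≤ c / 8 :=
    ⟨c / 8 / (M + 1), by positivity, by
      rw [div_mul_eq_mul_div, div_le_iff₀ (by positivity)]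
      nlinarith⟩
  obtain ⟨W, hW, hWR⟩ : ∃ W : ℝ, 0 < W ∧ 2 * R * W ≤ c / 8 :=
    ⟨c / 8 / (2 * R + 1), by positivity, by
      rw [mul_div_assoc', div_le_iff₀ (by positivity)]
      nlinarith⟩
  have step : ∀ (k : ℕ) (S : Set ℕ), L (ind S) < W → ∃ (j : ℕ) (u : LI) (S' : Set ℕ),
      k ≤ j ∧ S ⊆ S' ∧ L (ind S') < W ∧ ‖u‖ ≤ 2 * R ∧ (∀ n, u n ≠ 0 → n ∈ S' ∧ n ∉ S) ∧
      c / 4 ≤ η j u := by
    intro k S hS
    obtain ⟨y, hy, hy2⟩ := conv (ε * ε * (W - L (ind S))) (by
      have : 0 < W - L (ind S) := by linarith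
      positivity)
    have e1 : ∀ᶠ j in (U : Filter ℕ), m j (ind S) < W := (hL _).eventually (gt_mem_nhds hS)
    have e2 : ∀ᶠ j in (U : Filter ℕ), η j y < c / 2 :=
      ((h0 y).eventually (gt_mem_nhds (by linarith))).filter_mono hU
    have e3 : ∀ᶠ j in (U : Filter ℕ), k ≤ j := (eventually_ge_atTop k).filter_mono hU
    obtain ⟨j, hj1, hj2, hj3⟩ := (e1.and (e2.and e3)).exists
    obtain ⟨y', hy', hQ⟩ := hy2 j
    set z := y' - y with hz
    have hzn : ‖z‖ ≤ 2 * R := (norm_sub_le _ _).trans (by linarith [hy'.1])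
    let A : Set ℕ := {n | ε < |z n|}
    have hub : ∀ n, |(if n ∈ A ∧ n ∉ S then z n else 0)| ≤ 2 * R := by
      intro n
      split_ifs
      · exact (abs_le_norm _ _).trans hzn
      · simp [hR0]
    let u : LI := mk (fun n => if n ∈ A ∧ n ∉ S then z n else 0) (2 * R) hub
    have hu : ∀ n, u n = if n ∈ A ∧ n ∉ S then z n else 0 := fun _ => rfl
    refine ⟨j, u, S ∪ A, hj3, Set.subset_union_left, ?_, norm_le' _ _ hub, ?_, ?_⟩
    · have a1 : L ((ε * ε) • ind (S ∪ A)) ≤ L ((ε * ε) • ind S + z * z) := by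
        refine hLpos.mono fun n => ?_
        simp only [BoundedContinuousFunction.mul_apply, BoundedContinuousFunction.add_apply,
          BoundedContinuousFunction.smul_apply, smul_eq_mul, ind_apply]
        have b0 := mul_self_nonneg (z n)
        have b1 : 0 < ε * ε := by positivity
        by_cases h1 : n ∈ S
        · simp only [Set.mem_union, h1, true_or, if_true]; linarith
        · by_cases h2 : n ∈ A
          · simp only [Set.mem_union, h1, h2, or_true, if_true, if_false]
            have b2 : ε < |z n| := h2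
            have b3 : ε * ε ≤ |z n| * |z n| := mul_le_mul b2.le b2.le hε.le (abs_nonneg _)
            rw [abs_mul_abs_self] at b3
            linarith
          · simp only [Set.mem_union, h1, h2, or_false, if_false]; linarith
      rw [map_add, map_smul, map_smul, smul_eq_mul, smul_eq_mul] at a1
      have b1 : 0 < ε * ε := by positivity
      have a2 : ε * ε * L (ind (S ∪ A)) < ε * ε * W := by linarith
      exact lt_of_mul_lt_mul_left a2 b1.le
    · intro n hn
      rw [hu] at hn
      split_ifs at hn with h1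
      · exact ⟨Or.inr h1.1, h1.2⟩
      · exact absurd rfl hn
    · have a1 : η j (z - u) ≤ m j (ε • 1 + (2 * R) • ind S) := by
        refine hdom j _ _ fun n => ?_
        simp only [BoundedContinuousFunction.sub_apply, BoundedContinuousFunction.add_apply,
          BoundedContinuousFunction.smul_apply, smul_eq_mul, ind_apply, hu,
          BoundedContinuousFunction.coe_one, Pi.one_apply]
        have b0 := (abs_le_norm z n).trans hzn
        by_cases h1 : n ∈ S
        · simp only [h1, not_true, and_false, if_false, if_true, sub_zero]; linarith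
        · by_cases h2 : n ∈ A
          · simp only [h1, h2, not_false_iff, and_true, if_false, if_true, sub_self, abs_zero]
            linarith
          · simp only [h1, h2, false_and, if_false, sub_zero]
            have : ¬ ε < |z n| := h2
            linarith
      rw [map_add, map_smul, map_smul, smul_eq_mul, smul_eq_mul, map_sub] at a1
      have a2 : ε * m j 1 ≤ ε * M := mul_le_mul_of_nonneg_left ((hm1 j).trans (hM j)) hε.le
      have a3 : 2 * R * m j (ind S) ≤ 2 * R * W :=
        mul_le_mul_of_nonneg_left hj1.le (by positivity)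
      have a4 : η j z = η j y' - η j y := by rw [hz, map_sub]
      have a5 := hy'.2 j le_rfl
      linarith
  choose! J u nx hJ hsub hnx hun hsupp hη using step
  let S : ℕ → Set ℕ := fun k => Nat.rec ∅ (fun k S => nx k S) k
  have hS : ∀ k, S (k + 1) = nx k (S k) := fun _ => rfl
  have hSW : ∀ k, L (ind (S k)) < W := by
    intro k
    induction k with
    | zero =>
      have : ind (S 0) = 0 := by
        ext n
        rw [ind_apply]
        simp [S]
      rw [this, map_zero]; exact hW
    | succ k ih => rw [hS]; exact hnx k _ ih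
  have hmono : Monotone S := monotone_nat_of_le_succ fun k => by
    rw [hS]; exact hsub k _ (hSW k)
  have hJt : Tendsto (fun k => J k (S k)) atTop atTop :=
    tendsto_atTop_mono (fun k => hJ k _ (hSW k)) tendsto_id
  have key := disj (fun k => η (J k (S k))) M (fun k => hM _) (fun x => (h0 x).comp hJt)
    (fun k => u k (S k)) (2 * R) (fun k => hun k _ (hSW k)) (by
      intro k l n hk hl
      have a1 := hsupp k _ (hSW k) n hk
      have a2 := hsupp l _ (hSW l) n hl
      rw [← hS] at a1 a2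
      by_contra hne
      rcases lt_or_gt_of_ne hne with h1 | h1
      · exact a2.2 (hmono (Nat.succ_le_of_lt h1) a1.1)
      · exact a1.2 (hmono (Nat.succ_le_of_lt h1) a2.1))
  have := ge_of_tendsto' key fun k => hη k _ (hSW k)
  linarith

end Pool.Agent.H133Z.Lip
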