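import Mathlib
import Pool.Agent.H133Z.LipG
import Pool.Agent.H133Z.LipB
import Pool.Agent.Helper183.Gar.Mean

/-!
The two metric spaces: the discrete space `DN` (`Lip₀ ≅ ℓ∞`) and the integer grid `DM` of `c₀₀`
with the sup metric (`ℓ₁` is complemented in `Lip₀`).
-/

set_option autoImplicit false

open Filter Topology BoundedContinuousFunction

namespace Pool.Agent.H133Z.Lip

/-- Lipschitz functions vanishing at the base point -/
abbrev Lip0 (X : Type) [MetricSpace X] (x₀ : X) : Type :=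
  {f : X → ℝ // (∃ K : NNReal, LipschitzWith K f) ∧ f x₀ = 0}

/-- bounded functionals -/
def Bd {X : Type} [MetricSpace X] (x₀ : X) (φ : (X → ℝ) →ₗ[ℝ] ℝ) : Prop :=
  ∃ C : ℝ, ∀ f : X → ℝ, f x₀ = 0 → ∀ K : NNReal, LipschitzWith K f → |φ f| ≤ C * K

/-- the weak topology -/
@[reducible] def wtop (X : Type) [MetricSpace X] (x₀ : X) : TopologicalSpace (Lip0 X x₀) :=
  ⨅ (φ : (X → ℝ) →ₗ[ℝ] ℝ) (_ : Bd x₀ φ),
    TopologicalSpace.induced (fun f : Lip0 X x₀ => φ f.1) (inferInstance : TopologicalSpace ℝ)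

theorem tendsto_wtop {X : Type} [MetricSpace X] (x₀ : X) {ι : Type} (l : Filter ι)
    (s : ι → Lip0 X x₀) (x : Lip0 X x₀) :
    Tendsto s l (@nhds _ (wtop X x₀) x) ↔
      ∀ φ, Bd x₀ φ → Tendsto (fun i => φ (s i).1) l (𝓝 (φ x.1)) := by
  unfold wtop
  simp only [nhds_iInf, nhds_induced, tendsto_iInf, tendsto_comap_iff]
  rfl

theorem dense_univ_of {X : Type} [MetricSpace X] (h : ∀ x y : X, dist x y < 1 → x = y)
    {A : Set X} (hA : Dense A) : A = Set.univ := by
  refine Set.eq_univ_of_forall fun x => ?_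
  obtain ⟨y, hy, hxy⟩ := hA.exists_dist_lt x one_pos
  rw [h x y hxy]; exact hy

theorem dens {X Y : Type} [MetricSpace X] [MetricSpace Y] [Infinite X] [Countable Y]
    (h : ∀ x y : X, dist x y < 1 → x = y) (A : Set X) (hA : Dense A) :
    ∃ B : Set Y, Dense B ∧ Cardinal.mk B ≤ Cardinal.mk A := by
  refine ⟨Set.univ, dense_univ, ?_⟩
  rw [dense_univ_of h hA, Cardinal.mk_univ, Cardinal.mk_univ]
  exact Cardinal.mk_le_aleph0.trans (Cardinal.aleph0_le_mk X)

/-! ### The discrete space -/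

/-- the natural numbers with the discrete metric -/
def DN : Type := ℕ

instance : DecidableEq DN := inferInstanceAs (DecidableEq ℕ)
instance : Infinite DN := inferInstanceAs (Infinite ℕ)
instance : Countable DN := inferInstanceAs (Countable ℕ)

instance : MetricSpace DN where
  dist x y := if x = y then 0 else 1
  dist_self x := if_pos rfl
  dist_comm x y := by simp only [eq_comm]
  dist_triangle x y z := by
    by_cases h1 : x = z
    · rw [if_pos h1]; split_ifs <;> norm_num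
    · rw [if_neg h1]
      by_cases h2 : x = y
      · rw [if_pos h2, if_neg (h2 ▸ h1)]; norm_num
      · rw [if_neg h2]; split_ifs <;> norm_num
  eq_of_dist_eq_zero {x y} h := by
    by_contra hne
    rw [if_neg hne] at h
    exact one_ne_zero h

theorem DN.dist_eq (x y : DN) : dist x y = if x = y then 0 else 1 := rfl

/-- base point -/
def n0 : DN := (0 : ℕ)

/-- a bounded sequence as a function on `DN` -/
def uu : LI →ₗ[ℝ] (DN → ℝ) where
  toFun a := fun n => Nat.casesOn (motive := fun _ => ℝ) n 0 (fun k => a k)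
  map_add' a b := by
    funext n
    cases n with
    | zero => exact (add_zero (0 : ℝ)).symm
    | succ k => rfl
  map_smul' c a := by
    funext n
    cases n with
    | zero => exact (mul_zero c).symm
    | succ k => rfl

theorem uu_abs (a : LI) (n : DN) : |uu a n| ≤ ‖a‖ := by
  cases n with
  | zero => exact (abs_zero (α := ℝ)).le.trans (norm_nonneg a)
  | succ k => exact abs_le_norm a k

theorem uu_lip (a : LI) : LipschitzWith (2 * ‖a‖₊) (uu a) := by
  refine LipschitzWith.of_dist_le_mul fun x y => ?_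
  rw [DN.dist_eq]
  split_ifs with h
  · rw [h]; simp
  · rw [Real.dist_eq]
    have := abs_sub (uu a x) (uu a y)
    simp only [NNReal.coe_mul, NNReal.coe_ofNat, coe_nnnorm, mul_one]
    linarith [uu_abs a x, uu_abs a y]

/-- a bounded sequence as an element of `Lip₀` -/
def UU (a : LI) : Lip0 DN n0 := ⟨uu a, ⟨_, uu_lip a⟩, rfl⟩

theorem uu_surj (g : DN → ℝ) (h0 : g n0 = 0) (K : NNReal) (hK : LipschitzWith K g) :
    ∃ a : LI, ‖a‖ ≤ K ∧ uu a = g := by
  have hb : ∀ k : ℕ, |g (k + 1 : ℕ)| ≤ K := by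
    intro k
    have := hK.dist_le_mul (k + 1 : ℕ) n0
    have e : @dist DN _ (k + 1 : ℕ) n0 = 1 := if_neg (Nat.succ_ne_zero k)
    rw [h0, Real.dist_eq, sub_zero] at this
    exact this.trans (le_of_eq ((congrArg (fun t => (K : ℝ) * t) e).trans (mul_one _)))
  refine ⟨mk (fun k => g (k + 1 : ℕ)) K hb, norm_le' _ _ hb, ?_⟩
  funext n
  cases n with
  | zero => exact h0.symm
  | succ k => rfl

theorem exists_VV : ∃ V : Lip0 DN n0 → LI, ∀ g, UU (V g) = g := by
  have : ∀ g : Lip0 DN n0, ∃ a, UU a = g := by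
    rintro ⟨g, ⟨K, hK⟩, h0⟩
    obtain ⟨a, -, ha⟩ := uu_surj g h0 K hK
    exact ⟨a, Subtype.ext ha⟩
  choose V hV using this
  exact ⟨V, hV⟩

theorem bd_to (ψ : (DN → ℝ) →ₗ[ℝ] ℝ) (h : Bd n0 ψ) :
    ∃ f : LI →L[ℝ] ℝ, ∀ a, f a = ψ (uu a) := by
  obtain ⟨C, hC⟩ := h
  refine ⟨(ψ ∘ₗ uu).mkContinuous (C * 2) fun a => ?_, fun a => rfl⟩
  have := hC (uu a) rfl _ (uu_lip a)
  simp only [NNReal.coe_mul, NNReal.coe_ofNat, coe_nnnorm] at this
  rw [mul_assoc]
  exact this

theorem bd_from (f : LI →L[ℝ] ℝ) : ∃ ψ : (DN → ℝ) →ₗ[ℝ] ℝ, Bd n0 ψ ∧ ∀ a, ψ (uu a) = f a := by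
  obtain ⟨w, hw⟩ := uu.exists_leftInverse_of_injective (by
    rw [LinearMap.ker_eq_bot']
    intro a ha
    ext k
    exact congrFun ha (k + 1 : ℕ))
  have hw' : ∀ a, w (uu a) = a := fun a => LinearMap.congr_fun hw a
  refine ⟨(f : LI →ₗ[ℝ] ℝ) ∘ₗ w, ⟨‖f‖, fun g h0 K hK => ?_⟩, fun a => ?_⟩
  · obtain ⟨a, ha, rfl⟩ := uu_surj g h0 K hK
    change |f (w (uu a))| ≤ _
    rw [hw']
    exact (f.le_opNorm a).trans (mul_le_mul_of_nonneg_left ha f.opNorm_nonneg)
  · change f (w (uu a)) = _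
    rw [hw']

theorem tendsto_UU {ι : Type} (l : Filter ι) (s : ι → LI) (x : LI) :
    Tendsto (fun i => UU (s i)) l (@nhds _ (wtop DN n0) (UU x)) ↔
      ∀ f : LI →L[ℝ] ℝ, Tendsto (fun i => f (s i)) l (𝓝 (f x)) := by
  rw [tendsto_wtop]
  constructor
  · intro h f
    obtain ⟨ψ, hψ, hf⟩ := bd_from f
    simp only [← hf]
    exact h ψ hψ
  · intro h ψ hψ
    obtain ⟨f, hf⟩ := bd_to ψ hψ
    have := h f
    simp only [hf] at this
    exact this

/-! ### The grid -/

/-- finitely supported integer sequences -/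
def DM : Type := ℕ →₀ ℤ

noncomputable instance : AddCommGroup DM := inferInstanceAs (AddCommGroup (ℕ →₀ ℤ))
instance : Infinite DM := inferInstanceAs (Infinite (ℕ →₀ ℤ))
instance : Countable DM := inferInstanceAs (Countable (ℕ →₀ ℤ))

/-- coordinates -/
def co (x : DM) (j : ℕ) : ℤ := (show ℕ →₀ ℤ from x) j

theorem co_add (x y : DM) (j : ℕ) : co (x + y) j = co x j + co y j := rfl
theorem co_sub (x y : DM) (j : ℕ) : co (x - y) j = co x j - co y j := rfl
theorem co_zero (j : ℕ) : co 0 j = 0 := rfl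

theorem co_bd (x : DM) (j : ℕ) :
    |(co x j : ℝ)| ≤ ∑ i ∈ (show ℕ →₀ ℤ from x).support, |(co x i : ℝ)| := by
  by_cases h : j ∈ (show ℕ →₀ ℤ from x).support
  · exact Finset.single_le_sum (f := fun i => |(co x i : ℝ)|) (fun _ _ => abs_nonneg _) h
  · have : co x j = 0 := Finsupp.notMem_support_iff.1 h
    rw [this]
    simpa using Finset.sum_nonneg fun _ _ => abs_nonneg _

/-- the embedding in `ℓ∞` -/
noncomputable def emb (x : DM) : LI := mk (fun j => (co x j : ℝ)) _ (co_bd x)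

theorem emb_inj : Function.Injective emb := by
  intro x y h
  refine Finsupp.ext fun j => ?_
  have : (co x j : ℝ) = co y j := congrArg (fun a : LI => a j) h
  exact_mod_cast this

noncomputable instance : MetricSpace DM := MetricSpace.induced emb emb_inj inferInstance

theorem co_le_dist (x y : DM) (j : ℕ) : |(co x j : ℝ) - co y j| ≤ dist x y := by
  have := BoundedContinuousFunction.dist_coe_le_dist (f := emb x) (g := emb y) j
  rw [Real.dist_eq] at this
  exact this

theorem dist_le_of (x y : DM) (C : ℝ) (h : ∀ j, |(co x j : ℝ) - co y j| ≤ C) : dist x y ≤ C :=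
  (BoundedContinuousFunction.dist_le (f := emb x) (g := emb y)
    ((abs_nonneg _).trans (h 0))).2 h

theorem DM.sep (x y : DM) (h : dist x y < 1) : x = y := by
  refine Finsupp.ext fun j => ?_
  have h1 := (co_le_dist x y j).trans_lt h
  have h2 : |co x j - co y j| < 1 := by exact_mod_cast h1
  have h3 := Int.abs_lt_one_iff.1 h2
  exact sub_eq_zero.1 h3

theorem dist_add (v x : DM) : dist (v + x) x ≤ dist v 0 :=
  dist_le_of _ _ _ fun j => by
    have := co_le_dist v 0 j
    rw [co_zero] at this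
    rw [co_add]
    simpa using this

/-- summable sequences -/
abbrev L1 : Type := lp (fun _ : ℕ => ℝ) 1

theorem hs (a : L1) : HasSum (fun i => |a i|) ‖a‖ := by
  have := lp.hasSum_norm (p := 1) (by simp) a
  simpa using this

/-- a summable sequence as a function on the grid -/
noncomputable def ii : L1 →ₗ[ℝ] (DM → ℝ) where
  toFun a := fun x => ∑ j ∈ (show ℕ →₀ ℤ from x).support, a j * co x j
  map_add' a b := by
    funext x
    simp [add_mul, Finset.sum_add_distrib]
  map_smul' c a := by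
    funext x
    simp [Finset.mul_sum, mul_assoc]

theorem ii_eq (a : L1) (x : DM) (s : Finset ℕ) (h : ∀ j, j ∉ s → co x j = 0) :
    ii a x = ∑ j ∈ s, a j * co x j := by
  refine Finset.sum_subset (fun j hj => ?_) fun j _ hj => ?_
  · by_contra h'
    exact Finsupp.mem_support_iff.1 hj (h j h')
  · have : co x j = 0 := Finsupp.notMem_support_iff.1 hj
    rw [this]; simp

theorem ii_add (a : L1) (x y : DM) : ii a (x + y) = ii a x + ii a y := by
  classical
  let s := (show ℕ →₀ ℤ from x).support ∪ (show ℕ →₀ ℤ from y).support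
  have h1 : ∀ j, j ∉ s → co x j = 0 := fun j hj =>
    Finsupp.notMem_support_iff.1 fun h => hj (Finset.mem_union_left _ h)
  have h2 : ∀ j, j ∉ s → co y j = 0 := fun j hj =>
    Finsupp.notMem_support_iff.1 fun h => hj (Finset.mem_union_right _ h)
  rw [ii_eq a x s h1, ii_eq a y s h2, ii_eq a (x + y) s fun j hj => by
    rw [co_add, h1 j hj, h2 j hj, add_zero], ← Finset.sum_add_distrib]
  refine Finset.sum_congr rfl fun j _ => ?_
  rw [co_add]; push_cast; ring

theorem ii_zero (a : L1) : ii a 0 = 0 := by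
  rw [ii_eq a 0 ∅ fun j _ => co_zero j]; simp

theorem ii_lip (a : L1) : LipschitzWith ‖a‖₊ (ii a) := by
  refine LipschitzWith.of_dist_le_mul fun x y => ?_
  have h1 : ii a x = ii a (x - y) + ii a y := by rw [← ii_add, sub_add_cancel]
  rw [Real.dist_eq, h1, add_sub_cancel_right, coe_nnnorm]
  change |∑ j ∈ _, a j * co (x - y) j| ≤ _
  refine (Finset.abs_sum_le_sum_abs _ _).trans ?_
  refine (Finset.sum_le_sum (g := fun j => |a j| * dist x y) fun j _ => ?_).trans ?_
  · rw [abs_mul, co_sub]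
    push_cast
    exact mul_le_mul_of_nonneg_left (co_le_dist x y j) (abs_nonneg _)
  · rw [← Finset.sum_mul]
    exact mul_le_mul_of_nonneg_right (sum_le_hasSum _ (fun _ _ => abs_nonneg _) (hs a))
      dist_nonneg

/-- a summable sequence as an element of `Lip₀` -/
noncomputable def II (a : L1) : Lip0 DM 0 := ⟨ii a, ⟨_, ii_lip a⟩, ii_zero a⟩

theorem exists_linmean (G : Type) [AddCommGroup G] :
    ∃ μ : (G → ℝ) →ₗ[ℝ] ℝ, μ (fun _ => 1) = 1 ∧ (∀ f C, (∀ x, |f x| ≤ C) → |μ f| ≤ C) ∧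
      ∀ f a C, (∀ x, |f x| ≤ C) → μ (fun x => f (a + x)) = μ f := by
  obtain ⟨M, h1, -, h3, h4, h5⟩ := Gardner.exists_mean G
  have hsm : ∀ (c : ℝ) (f : G → ℝ), Gardner.Bdd f → Gardner.Bdd (c • f) := by
    rintro c f ⟨C, hC⟩
    exact ⟨|c| * C, fun x => by
      rw [Pi.smul_apply, smul_eq_mul, abs_mul]
      exact mul_le_mul_of_nonneg_left (hC x) (abs_nonneg _)⟩
  let B : Submodule ℝ (G → ℝ) :=
    { carrier := {f | Gardner.Bdd f}
      add_mem' := fun ha hb => Gardner.Bdd.add' ha hb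
      zero_mem' := ⟨0, fun _ => by simp⟩
      smul_mem' := fun c f hf => hsm c f hf }
  have hom : ∀ (c : ℝ) (f : G → ℝ), Gardner.Bdd f → M (c • f) = c * M f := by
    intro c f hf
    let A : ℝ →+ ℝ := AddMonoidHom.mk' (fun c => M (c • f)) fun c c' => by
      rw [add_smul]; exact h1 _ _ (hsm c f hf) (hsm c' f hf)
    obtain ⟨C, hC⟩ := hf
    have hA : Continuous A := AddMonoidHomClass.continuous_of_bound A C fun c => by
      rw [mul_comm]
      exact h4 _ _ fun x => by
        rw [Pi.smul_apply, smul_eq_mul, abs_mul]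
        exact mul_le_mul_of_nonneg_left (hC x) (abs_nonneg _)
    have := map_real_smul A hA c 1
    simp only [smul_eq_mul, mul_one] at this
    change M (c • f) = c * M ((1 : ℝ) • f) at this
    rwa [one_smul] at this
  let M0 : B →ₗ[ℝ] ℝ :=
    { toFun := fun f => M f.1
      map_add' := fun f g => h1 _ _ f.2 g.2
      map_smul' := fun c f => hom c f.1 f.2 }
  obtain ⟨μ, hμ⟩ := M0.exists_extend
  have hμ' : ∀ f, Gardner.Bdd f → μ f = M f := fun f hf => LinearMap.congr_fun hμ ⟨f, hf⟩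
  refine ⟨μ, ?_, fun f C hC => ?_, fun f a C hC => ?_⟩
  · rw [hμ' _ ⟨1, fun _ => by simp⟩, h3]
  · rw [hμ' _ ⟨C, hC⟩]; exact h4 f C hC
  · rw [hμ' _ ⟨C, hC⟩, hμ' _ ⟨C, fun x => hC _⟩]; exact h5 f a ⟨C, hC⟩

/-- unit vectors -/
noncomputable def sg (j : ℕ) (n : ℤ) : DM := Finsupp.single j n

theorem co_sg (j : ℕ) (n : ℤ) (i : ℕ) : co (sg j n) i = if j = i then n else 0 :=
  Finsupp.single_apply

theorem exists_P : ∃ P : ℕ → (DM → ℝ) →ₗ[ℝ] ℝ,
    (∀ (f : DM → ℝ) (K : NNReal), LipschitzWith K f → ∀ s : Finset ℕ, ∑ j ∈ s, |P j f| ≤ K) ∧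
    ∀ (a : L1) j, P j (ii a) = a j := by
  classical
  obtain ⟨μ, h1, h2, h3⟩ := exists_linmean DM
  let D : DM → (DM → ℝ) →ₗ[ℝ] (DM → ℝ) := fun v =>
    { toFun := fun f x => f (v + x) - f x
      map_add' := fun f g => by funext x; simp only [Pi.add_apply]; ring
      map_smul' := fun c f => by
        funext x; simp only [Pi.smul_apply, smul_eq_mul, RingHom.id_apply]; ring }
  have hD : ∀ v f x, D v f x = f (v + x) - f x := fun _ _ _ => rfl
  refine ⟨fun j => μ ∘ₗ D (sg j 1), fun f K hK s => ?_, fun a j => ?_⟩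
  · have hb : ∀ v x, |D v f x| ≤ K * dist v 0 := fun v x => by
      have := hK.dist_le_mul (v + x) x
      rw [Real.dist_eq] at this
      exact this.trans (mul_le_mul_of_nonneg_left (dist_add v x) K.2)
    let q : DM →+ ℝ := AddMonoidHom.mk' (fun v => μ (D v f)) fun v w => by
      have e : D (v + w) f = (fun x => D v f (w + x)) + D w f := by
        funext x
        simp only [Pi.add_apply, hD, add_assoc]
        ring
      rw [e, map_add, h3 _ _ _ (hb v)]
    have hq : ∀ v, q v = μ (D v f) := fun _ => rfl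
    let σ : ℕ → ℤ := fun j => if 0 ≤ q (sg j 1) then 1 else -1
    have e1 : ∀ j, q (sg j (σ j)) = |q (sg j 1)| := by
      intro j
      have : sg j (σ j) = σ j • sg j 1 := by
        change Finsupp.single j (σ j) = σ j • Finsupp.single j (1 : ℤ)
        simp
      rw [this, map_zsmul]
      simp only [σ]
      split_ifs with h
      · rw [abs_of_nonneg h, one_smul]
      · rw [abs_of_neg (not_le.1 h), neg_smul, one_smul]
    have e2 : ∀ i, co (∑ j ∈ s, sg j (σ j)) i = if i ∈ s then σ i else 0 := by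
      intro i
      have : co (∑ j ∈ s, sg j (σ j)) i = ∑ j ∈ s, co (sg j (σ j)) i :=
        Finsupp.finsetSum_apply s (fun j => Finsupp.single j (σ j)) i
      rw [this]
      simp only [co_sg]
      exact Finset.sum_ite_eq' s i σ
    have e3 : dist (∑ j ∈ s, sg j (σ j)) 0 ≤ 1 := dist_le_of _ _ _ fun i => by
      rw [e2, co_zero]
      simp only [σ]
      split_ifs <;> simp
    calc ∑ j ∈ s, |μ (D (sg j 1) f)| = q (∑ j ∈ s, sg j (σ j)) := by
          rw [map_sum]
          exact Finset.sum_congr rfl fun j _ => (e1 j).symm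
      _ ≤ K * dist (∑ j ∈ s, sg j (σ j)) 0 := (le_abs_self _).trans (h2 _ _ (hb _))
      _ ≤ K := mul_le_of_le_one_right K.2 e3
  · have e : D (sg j 1) (ii a) = a j • fun _ => 1 := by
      funext x
      rw [hD, ii_add, add_sub_cancel_right, ii_eq a _ {j} fun i hi => by
        rw [co_sg, if_neg fun h => hi (by rw [h]; exact Finset.mem_singleton_self _)]]
      simp [co_sg]
    change μ (D (sg j 1) (ii a)) = _
    rw [e, map_smul, h1, smul_eq_mul, mul_one]

/-- signs -/
def sn (b : Bool) : ℝ := if b then 1 else -1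

theorem abs_sn (b : Bool) : |sn b| = 1 := by cases b <;> simp [sn]

theorem exists_phi : ∃ φ : (ℕ → Bool) → (DM → ℝ) →ₗ[ℝ] ℝ, (∀ ψ, Bd (0 : DM) (φ ψ)) ∧
    (∀ f : Lip0 DM 0, Continuous fun ψ => φ ψ f.1) ∧
    ∀ ψ (a : L1), φ ψ (ii a) = ∑' j, sn (ψ j) * a j := by
  obtain ⟨P, hP, hPi⟩ := exists_P
  let B : Submodule ℝ (DM → ℝ) :=
    { carrier := {f | ∃ K, LipschitzWith K f}
      add_mem' := fun ⟨_, ha⟩ ⟨_, hb⟩ => ⟨_, ha.add hb⟩
      zero_mem' := ⟨0, LipschitzWith.const 0⟩
      smul_mem' := fun c f ⟨_, hf⟩ => ⟨_, (lipschitzWith_smul c).comp hf⟩ }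
  have hsum0 : ∀ f ∈ B, Summable fun j => |P j f| := fun f ⟨K, hK⟩ =>
    summable_of_sum_le (fun _ => abs_nonneg _) (hP f K hK)
  have hab : ∀ (ψ : ℕ → Bool) f j, ‖sn (ψ j) * P j f‖ = |P j f| := fun ψ f j => by
    rw [Real.norm_eq_abs, abs_mul, abs_sn, one_mul]
  have hsum : ∀ (ψ : ℕ → Bool), ∀ f ∈ B, Summable fun j => sn (ψ j) * P j f := fun ψ f hf =>
    Summable.of_norm (by simp only [hab]; exact hsum0 f hf)
  have hex : ∀ ψ : ℕ → Bool, ∃ φ : (DM → ℝ) →ₗ[ℝ] ℝ, ∀ f ∈ B,
      φ f = ∑' j, sn (ψ j) * P j f := by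
    intro ψ
    let φ0 : B →ₗ[ℝ] ℝ :=
      { toFun := fun f => ∑' j, sn (ψ j) * P j f.1
        map_add' := fun f g => by
          rw [← (hsum ψ f.1 f.2).tsum_add (hsum ψ g.1 g.2)]
          simp only [Submodule.coe_add, map_add, mul_add]
        map_smul' := fun c f => by
          simp only [Submodule.coe_smul, map_smul, smul_eq_mul, RingHom.id_apply]
          rw [← tsum_mul_left]
          exact tsum_congr fun j => by ring }
    obtain ⟨φ, hφ⟩ := φ0.exists_extend
    exact ⟨φ, fun f hf => LinearMap.congr_fun hφ ⟨f, hf⟩⟩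
  choose φ hφ using hex
  refine ⟨φ, fun ψ => ⟨1, fun f _ K hK => ?_⟩, fun f => ?_, fun ψ a => ?_⟩
  · rw [hφ ψ f ⟨K, hK⟩, one_mul, ← Real.norm_eq_abs]
    refine (norm_tsum_le_tsum_norm (by simp only [hab]; exact hsum0 f ⟨K, hK⟩)).trans ?_
    simp only [hab]
    exact (hsum0 f ⟨K, hK⟩).tsum_le_of_sum_le (hP f K hK)
  · simp only [hφ _ f.1 f.2.1]
    refine continuous_tsum (fun j => ?_) (hsum0 f.1 f.2.1) fun j ψ => (hab ψ f.1 j).le
    exact ((continuous_of_discreteTopology (f := sn)).comp (continuous_apply j)).mul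
      continuous_const
  · rw [hφ ψ _ ⟨_, ii_lip a⟩]
    simp only [hPi]

theorem exists_ker (Φ : Finset ((DM → ℝ) →ₗ[ℝ] ℝ)) (n : ℕ) (ρ : ℝ) (hρ : 0 < ρ) :
    ∃ v : L1, ‖v‖ = ρ ∧ (∀ j < n, v j = 0) ∧ ∀ φ ∈ Φ, φ (ii v) = 0 := by
  classical
  let T : L1 →ₗ[ℝ] (Φ → ℝ) × (Fin n → ℝ) :=
    { toFun := fun v => (fun φ => φ.1 (ii v), fun j => v j)
      map_add' := fun v w => by
        ext <;> simp
      map_smul' := fun c v => by
        ext <;> simp }
  have hli : LinearIndependent ℝ fun i : ℕ => (lp.single 1 i (1 : ℝ) : L1) := by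
    rw [linearIndependent_iff']
    intro s g hg i hi
    have := congrArg (fun a : L1 => a i) hg
    simp only [lp.coeFn_sum, Finset.sum_apply, lp.coeFn_smul, Pi.smul_apply, lp.single_apply,
      smul_eq_mul, lp.coeFn_zero, Pi.zero_apply] at this
    rw [Finset.sum_eq_single i] at this
    · simpa using this
    · intro b _ hb
      rw [Pi.single_eq_of_ne hb.symm, mul_zero]
    · intro h; exact absurd hi h
  have hT : ¬ ∀ v, T v = 0 → v = 0 := by
    intro h
    have : FiniteDimensional ℝ L1 :=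
      FiniteDimensional.of_injective T (LinearMap.ker_eq_bot.1 (LinearMap.ker_eq_bot'.2 h))
    exact Module.Finite.not_linearIndependent_of_infinite _ hli
  push Not at hT
  obtain ⟨v, hv, hv0⟩ := hT
  have hn : 0 < ‖v‖ := norm_pos_iff.2 hv0
  refine ⟨(ρ / ‖v‖) • v, ?_, fun j hj => ?_, fun φ hφ => ?_⟩
  · rw [norm_smul, Real.norm_eq_abs, abs_of_pos (by positivity), div_mul_cancel₀ _ hn.ne']
  · have : v j = 0 := congrFun (congrArg Prod.snd hv) ⟨j, hj⟩
    rw [lp.coeFn_smul, Pi.smul_apply, this, smul_zero]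
  · have : φ (ii v) = 0 := congrFun (congrArg Prod.fst hv) ⟨φ, hφ⟩
    rw [map_smul, map_smul, this, smul_zero]

end Pool.Agent.H133Z.Lip
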