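import Mathlib
import Pool.Agent.H133Z.LipC

/-!
`Lip₀(DM)` and `Lip₀(DN)` are not homeomorphic in their weak topologies.
-/

set_option autoImplicit false

open Filter Topology BoundedContinuousFunction

namespace Pool.Agent.H133Z.Lip

theorem DN.sep (x y : DN) (h : dist x y < 1) : x = y := by
  by_contra hne
  rw [DN.dist_eq, if_neg hne] at h
  exact lt_irrefl _ h

theorem groth_LI : Groth LI := fun η M hM h0 c R hc h => groth η M hM h0 c R hc h

theorem tendsto_II (a : L1) : Tendsto II (𝓝 a) (@nhds _ (wtop DM 0) (II a)) := by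
  rw [tendsto_wtop]
  rintro φ ⟨C, hC⟩
  have : Continuous fun a : L1 => (φ ∘ₗ ii) a :=
    AddMonoidHomClass.continuous_of_bound (φ ∘ₗ ii) C fun a => hC _ (ii_zero a) _ (ii_lip a)
  exact this.tendsto a

theorem main (e : Lip0 DM 0 ≃ Lip0 DN n0)
    (he : @Continuous _ _ (wtop DM 0) (wtop DN n0) e)
    (he' : @Continuous _ _ (wtop DN n0) (wtop DM 0) e.symm) : False := by
  classical
  obtain ⟨V, hV⟩ := exists_VV
  obtain ⟨φ, hφ1, hφ2, hφ3⟩ := exists_phi
  obtain ⟨J, hJ⟩ : ∃ J : L1 → LI, ∀ a, UU (J a) = e (II a) := ⟨fun a => V (e (II a)), fun a => hV _⟩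
  have hJt : ∀ {ι : Type} (l : Filter ι) (s : ι → L1) (a : L1),
      Tendsto (fun i => II (s i)) l (@nhds _ (wtop DM 0) (II a)) →
      ∀ f : LI →L[ℝ] ℝ, Tendsto (fun i => f (J (s i))) l (𝓝 (f (J a))) := by
    intro ι l s a h
    rw [← tendsto_UU]
    simp only [hJ]
    exact (@Continuous.tendsto _ _ (wtop DM 0) (wtop DN n0) _ he (II a)).comp h
  have hcl : ∀ R : ℕ, IsClosed {a : L1 | ‖J a‖ ≤ R} := by
    intro R
    have e1 : {a : L1 | ‖J a‖ ≤ R} = ⋂ n, {a | |J a n| ≤ R} := by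
      ext a
      simp only [Set.mem_ofPred_eq, Set.mem_iInter]
      exact ⟨fun h n => (abs_le_norm _ n).trans h, norm_le' _ _⟩
    rw [e1]
    refine isClosed_iInter fun n => isClosed_le (Continuous.abs ?_) continuous_const
    exact continuous_iff_continuousAt.2 fun a =>
      hJt (𝓝 a) id a (tendsto_II a) (BoundedContinuousFunction.evalCLM ℝ n)
  have hun : (⋃ R : ℕ, {a : L1 | ‖J a‖ ≤ R}) = Set.univ :=
    Set.eq_univ_of_forall fun a => Set.mem_iUnion.2 (exists_nat_ge ‖J a‖)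
  obtain ⟨R, a0, ha0⟩ := nonempty_interior_of_iUnion_of_closed hcl hun
  obtain ⟨ρ, hρ, hball⟩ := Metric.nhds_basis_closedBall.mem_iff.1 (mem_interior_iff_mem_nhds.1 ha0)
  let Ψ : (ℕ → Bool) → LI → ℝ := fun ψ x =>
    2 / ρ * (φ ψ (e.symm (UU (J a0 + x))).1 - φ ψ (II a0).1)
  have hΨ : ∀ ψ {ι : Type} (l : Filter ι) (s : ι → LI) (x : LI),
      (∀ f : LI →L[ℝ] ℝ, Tendsto (fun i => f (s i)) l (𝓝 (f x))) →
      Tendsto (fun i => Ψ ψ (s i)) l (𝓝 (Ψ ψ x)) := by
    intro ψ ι l s x h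
    have a1 : Tendsto (fun i => UU (J a0 + s i)) l (@nhds _ (wtop DN n0) (UU (J a0 + x))) := by
      rw [tendsto_UU]
      intro f
      simp only [map_add]
      exact (h f).const_add _
    have a2 := (@Continuous.tendsto _ _ (wtop DN n0) (wtop DM 0) _ he' _).comp a1
    exact (((tendsto_wtop _ _ _ _).1 a2 _ (hφ1 ψ)).sub_const _).const_mul _
  have hΨ0 : ∀ ψ, Ψ ψ 0 = 0 := by
    intro ψ
    simp only [Ψ, add_zero, hJ, Equiv.symm_apply_apply, sub_self, mul_zero]
  letI := TopologicalSpace.upgradeIsCompletelyMetrizable (ℕ → Bool)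
  refine joint (K := ℕ → Bool) groth_LI Ψ (fun x => ?_) (fun ψ x hx => ?_) (fun ψ => ?_)
    (2 * R) fun O hO hOn F ε hε => ?_
  · exact continuous_const.mul ((hφ2 _).sub (hφ2 _))
  · choose y hy1 hy2 using hx
    refine le_of_tendsto' (hΨ ψ atTop y x fun f => ?_) hy1
    refine tendsto_const_nhds.congr' ?_
    filter_upwards [eventually_ge_atTop ({f} : Finset (LI →L[ℝ] ℝ))] with F hF
    exact (hy2 F f (hF (Finset.mem_singleton_self f))).symm
  · by_contra hcon
    push Not at hcon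
    choose y hy1 hy2 using fun p : Finset (LI →L[ℝ] ℝ) × ℕ =>
      hcon p.1 (1 / ((p.2 : ℝ) + 1)) (by positivity)
    have a1 := hΨ ψ atTop y 0 fun f => by
      rw [map_zero]
      refine squeeze_zero_norm' ?_
        (tendsto_one_div_add_atTop_nhds_zero_nat.comp
          (tendsto_snd.mono_left prod_atTop_atTop_eq.ge))
      filter_upwards [eventually_ge_atTop (({f} : Finset (LI →L[ℝ] ℝ)), 0)] with p hp
      exact (hy1 p f (hp.1 (Finset.mem_singleton_self f))).le
    have a2 := ge_of_tendsto' a1 fun p => (hy2 p).le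
    rw [hΨ0] at a2
    linarith
  · obtain ⟨ψ0, hψ0⟩ := hOn
    choose v hv1 hv2 hv3 using fun p : Finset ((DM → ℝ) →ₗ[ℝ] ℝ) × ℕ => exists_ker p.1 p.2 ρ hρ
    let ψ : Finset ((DM → ℝ) →ₗ[ℝ] ℝ) × ℕ → ℕ → Bool := fun p j =>
      if j < p.2 then ψ0 j else decide (0 ≤ v p j)
    have a1 : Tendsto ψ atTop (𝓝 ψ0) := by
      refine tendsto_pi_nhds.2 fun j => tendsto_const_nhds.congr' ?_
      filter_upwards [eventually_ge_atTop ((∅ : Finset ((DM → ℝ) →ₗ[ℝ] ℝ)), j + 1)] with p hp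
      exact (if_pos (Nat.lt_of_succ_le hp.2)).symm
    have a2 : Tendsto (fun p => II (a0 + v p)) atTop (@nhds _ (wtop DM 0) (II a0)) := by
      rw [tendsto_wtop]
      intro χ _
      refine tendsto_const_nhds.congr' ?_
      filter_upwards [eventually_ge_atTop (({χ} : Finset ((DM → ℝ) →ₗ[ℝ] ℝ)), 0)] with p hp
      change χ (ii a0) = χ (ii (a0 + v p))
      rw [map_add, map_add, hv3 p χ (hp.1 (Finset.mem_singleton_self χ)), add_zero]
    have e1 : ∀ᶠ p in atTop, ψ p ∈ O := a1.eventually (hO.mem_nhds hψ0)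
    have e2 : ∀ᶠ p in atTop, ∀ f ∈ F, |f (J (a0 + v p)) - f (J a0)| < ε :=
      (Finset.eventually_all F).2 fun f _ =>
        (Metric.tendsto_nhds.1 (hJt atTop _ a0 a2 f)) ε hε
    obtain ⟨p, hp1, hp2⟩ := (e1.and e2).exists
    refine ⟨ψ p, hp1, J (a0 + v p) - J a0, ?_, fun f hf => ?_, ?_⟩
    · have b1 : ‖J (a0 + v p)‖ ≤ R := hball (by
        rw [mem_closedBall_iff_norm, add_sub_cancel_left, hv1])
      have b2 : ‖J a0‖ ≤ R := hball (Metric.mem_closedBall_self hρ.le)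
      exact (norm_sub_le _ _).trans (by linarith)
    · rw [map_sub]; exact hp2 f hf
    · have b1 : Ψ (ψ p) (J (a0 + v p) - J a0) = 2 / ρ * φ (ψ p) (ii (v p)) := by
        simp only [Ψ, add_sub_cancel, hJ, Equiv.symm_apply_apply]
        change _ * (φ (ψ p) (ii (a0 + v p)) - φ (ψ p) (ii a0)) = _
        rw [map_add, map_add, add_sub_cancel_left]
      have b2 : ∀ j, sn (ψ p j) * v p j = |v p j| := by
        intro j
        by_cases hj : j < p.2
        · rw [hv2 p j hj]; simp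
        · simp only [ψ, if_neg hj, sn, decide_eq_true_eq]
          split_ifs with h
          · rw [abs_of_nonneg h, one_mul]
          · rw [abs_of_neg (not_le.1 h), neg_one_mul]
      rw [b1, hφ3]
      simp only [b2]
      rw [(hs (v p)).tsum_eq, hv1, div_mul_cancel₀ _ hρ.ne']
      norm_num

end Pool.Agent.H133Z.Lip
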