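import Mathlib

set_option autoImplicit false

/-! An operator from `ℓ¹(A)` to a countable power of the line whose range is not Borel. -/

namespace Pool.Agent.H133Z.Range

open Set Filter Topology

/-- Cantor space -/
abbrev Ca : Type := ℕ → Bool

/-- index set: a length and a finite word -/
abbrev Ix : Type := (n : ℕ) × (Fin n → Bool)

/-- indicator of the initial segments of `t` -/
noncomputable def ind (t : Ca) (i : Ix) : ℝ := if (fun k : Fin i.1 => t k) = i.2 then 1 else 0

lemma ind_abs (t : Ca) (i : Ix) : ‖ind t i‖ ≤ 1 := by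
  unfold ind; split_ifs <;> simp

lemma ind_cont : Continuous (fun t : Ca => ind t) := by
  refine continuous_pi fun i => ?_
  have h : Continuous (fun t : Ca => (fun k : Fin i.1 => t k)) :=
    continuous_pi fun k => continuous_apply _
  have h2 : Continuous (fun w : Fin i.1 → Bool => if w = i.2 then (1 : ℝ) else 0) :=
    continuous_of_discreteTopology
  exact h2.comp h

lemma exists_nonBorel : ∃ A : Set Ca, ¬ @MeasurableSet Ca (borel Ca) A := by
  by_contra h
  push Not at h
  obtain ⟨b, hbc, -, hb⟩ := TopologicalSpace.exists_countable_basis Ca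
  have h1 : borel Ca = MeasurableSpace.generateFrom b := hb.borel_eq_generateFrom
  have h2 : Cardinal.mk b ≤ Cardinal.continuum :=
    (Cardinal.le_aleph0_iff_set_countable.2 hbc).trans Cardinal.aleph0_le_continuum
  have h3 := MeasurableSpace.cardinal_measurableSet_le_continuum h2
  rw [← h1] at h3
  have h4 : {t : Set Ca | @MeasurableSet Ca (borel Ca) t} = univ := eq_univ_of_forall h
  rw [h4, Cardinal.mk_univ, Cardinal.mk_set] at h3
  have h5 : Cardinal.mk Ca = Cardinal.continuum := by
    simp [Ca]
  rw [h5] at h3
  exact absurd h3 (not_le.2 (Cardinal.cantor _))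

variable (A : Set Ca)

lemma summ (f : lp (fun _ : A => ℝ) 1) : Summable (fun a : A => ‖f a‖) := by
  have := (lp.memℓp f).summable (by norm_num)
  simpa using this

lemma summ_ind (f : lp (fun _ : A => ℝ) 1) (i : Ix) :
    Summable (fun a : A => f a * ind a i) := by
  refine Summable.of_norm_bounded (summ A f) fun a => ?_
  rw [norm_mul]
  exact mul_le_of_le_one_right (norm_nonneg _) (ind_abs _ _)

/-- coordinate functional -/
noncomputable def coord (i : Ix) : lp (fun _ : A => ℝ) 1 →L[ℝ] ℝ :=
  LinearMap.mkContinuous
    { toFun := fun f => ∑' a : A, f a * ind a i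
      map_add' := fun f g => by
        rw [← (summ_ind A f i).tsum_add (summ_ind A g i)]
        refine tsum_congr fun a => ?_
        simp [add_mul]
      map_smul' := fun c f => by
        simp only [RingHom.id_apply, smul_eq_mul]
        rw [← tsum_mul_left]
        refine tsum_congr fun a => ?_
        simp [mul_assoc] } 1 (fun f => by
      simp only [LinearMap.coe_mk, AddHom.coe_mk, one_mul]
      have h1 : ‖f‖ = ∑' a : A, ‖f a‖ := by
        rw [lp.norm_eq_tsum_rpow (by norm_num)]
        simp
      rw [h1]
      refine tsum_of_norm_bounded (summ A f).hasSum fun a => ?_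
      rw [norm_mul]
      exact mul_le_of_le_one_right (norm_nonneg _) (ind_abs _ _))

lemma coord_apply (i : Ix) (f : lp (fun _ : A => ℝ) 1) :
    coord A i f = ∑' a : A, f a * ind a i := rfl

/-- the operator -/
noncomputable def op : lp (fun _ : A => ℝ) 1 →L[ℝ] (Ix → ℝ) :=
  ContinuousLinearMap.pi (coord A)

lemma mem_range (t : Ca) : ind t ∈ Set.range (op A) ↔ t ∈ A := by
  classical
  constructor
  · rintro ⟨f, hf⟩
    by_contra ht
    have h1 : ∀ n : ℕ, ∑' a : A, f a * ind a ⟨n, fun k => t k⟩ = 1 := by
      intro n
      have := congrFun hf ⟨n, fun k => t k⟩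
      simp only [op, ContinuousLinearMap.pi_apply, coord_apply] at this
      rw [this]; simp [ind]
    have h2 : Tendsto (fun n : ℕ => ∑' a : A, f a * ind a ⟨n, fun k => t k⟩) atTop
        (𝓝 (∑' _ : A, (0 : ℝ))) := by
      refine tendsto_tsum_of_dominated_convergence (summ A f) (fun a => ?_) ?_
      · have hne : (a : Ca) ≠ t := fun h => ht (h ▸ a.2)
        obtain ⟨k, hk⟩ := Function.ne_iff.1 hne
        refine tendsto_const_nhds.congr' ?_
        filter_upwards [eventually_gt_atTop k] with n hn
        have : (fun j : Fin n => (a : Ca) j) ≠ fun j : Fin n => t j := by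
          intro h
          exact hk (congrFun h ⟨k, hn⟩)
        simp [ind, this]
      · refine Eventually.of_forall fun n a => ?_
        rw [norm_mul]
        exact mul_le_of_le_one_right (norm_nonneg _) (ind_abs _ _)
    simp only [h1, tsum_zero] at h2
    have := tendsto_nhds_unique h2 tendsto_const_nhds
    exact zero_ne_one this
  · intro ht
    refine ⟨lp.single 1 (⟨t, ht⟩ : A) (1 : ℝ), ?_⟩
    funext i
    simp only [op, ContinuousLinearMap.pi_apply, coord_apply]
    rw [tsum_eq_single (⟨t, ht⟩ : A)]
    · simp
    · intro b hb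
      simp [lp.single_apply, Pi.single_eq_of_ne hb]

theorem not_borel (hA : ¬ @MeasurableSet Ca (borel Ca) A) :
    ¬ @MeasurableSet (Ix → ℝ) (borel (Ix → ℝ)) (Set.range (op A)) := by
  intro h
  apply hA
  have h1 : @Measurable Ca (Ix → ℝ) (borel Ca) (borel (Ix → ℝ)) (fun t => ind t) :=
    ind_cont.borel_measurable
  have h2 := h1 h
  have h3 : (fun t : Ca => ind t) ⁻¹' Set.range (op A) = A := by
    ext t; exact mem_range A t
  rwa [h3] at h2

end Pool.Agent.H133Z.Range
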